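import Pool.Agent.X247.Gf.Red

set_option autoImplicit false

/-!
# Regular languages are interpretations of a universal linear grammar
-/

namespace Pool.Agent.X247.Gf

/-- paths of the automaton given by the productions of the nonterminals that satisfy `Q` -/
inductive Path (P' : List (ℕ × List ℕ)) (T' Q : ℕ → Prop) : Option ℕ → List ℕ → Option ℕ → Prop
  | nil (p : Option ℕ) : Path P' T' Q p [] p
  | mid {p x p' : ℕ} {w : List ℕ} {q : Option ℕ} : (p, [x, p']) ∈ P' → Q p → Q p' → T' x →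
      Path P' T' Q (some p') w q → Path P' T' Q (some p) (x :: w) q
  | fin {p x : ℕ} : (p, [x]) ∈ P' → Q p → T' x → Path P' T' Q (some p) [x] none

variable {P' : List (ℕ × List ℕ)} {T' Q : ℕ → Prop}

theorem Path.of_none {w : List ℕ} {q : Option ℕ} (h : Path P' T' Q none w q) :
    w = [] ∧ q = none := by
  cases h
  exact ⟨rfl, rfl⟩

theorem Path.append {p p1 q : Option ℕ} {u v : List ℕ} (h : Path P' T' Q p u p1)
    (h' : Path P' T' Q p1 v q) : Path P' T' Q p (u ++ v) q := by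
  induction h with
  | nil p => exact h'
  | mid h1 h2 h3 h4 _ ih => exact .mid h1 h2 h3 h4 (ih h')
  | fin h1 h2 h3 =>
    obtain ⟨rfl, rfl⟩ := h'.of_none
    exact .fin h1 h2 h3

theorem Path.split : ∀ {u v : List ℕ} {p q : Option ℕ}, Path P' T' Q p (u ++ v) q →
    (∀ a, p = some a → Q a) →
    ∃ p1 : Option ℕ, (∀ a, p1 = some a → Q a) ∧ Path P' T' Q p u p1 ∧ Path P' T' Q p1 v q := by
  intro u
  induction u with
  | nil => intro v p q h hp; exact ⟨p, hp, .nil p, h⟩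
  | cons x u ih =>
    intro v p q h hp
    generalize he : x :: u ++ v = w at h
    cases h with
    | nil => simp at he
    | @mid p y p' w' _ h1 h2 h3 h4 h5 =>
      simp only [List.cons_append, List.cons.injEq] at he
      obtain ⟨rfl, rfl⟩ := he
      obtain ⟨p1, h6, h7, h8⟩ := ih h5 (by simpa using h3)
      exact ⟨p1, h6, .mid h1 h2 h3 h4 h7, h8⟩
    | @fin p y h1 h2 h3 =>
      simp only [List.cons_append, List.cons.injEq, List.append_eq_nil_iff] at he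
      obtain ⟨rfl, rfl, rfl⟩ := he
      exact ⟨none, by simp, .fin h1 h2 h3, .nil _⟩

/-- names of the new nonterminals -/
def nm (M : ℕ) (p : Option ℕ) (B : ℕ) (q : Option ℕ) : ℕ := M + Encodable.encode (p, B, q)

theorem nm_inj {M : ℕ} {p p1 q q1 : Option ℕ} {B B1 : ℕ} (h : nm M p B q = nm M p1 B1 q1) :
    p = p1 ∧ B = B1 ∧ q = q1 := by
  have h1 : Encodable.encode (p, B, q) = Encodable.encode (p1, B1, q1) := by
    simp only [nm] at h
    omega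
  have := Encodable.encode_injective h1
  simpa using this

theorem le_nm (M : ℕ) (p : Option ℕ) (B : ℕ) (q : Option ℕ) : M ≤ nm M p B q := by
  simp [nm]

/-- the states -/
def Qst (σ : ℕ → Finset ℕ) (D : ℕ) : Finset (Option ℕ) := insert none ((σ D).image some)

theorem mem_Qst {σ : ℕ → Finset ℕ} {D : ℕ} {p : Option ℕ} :
    p ∈ Qst σ D ↔ ∀ a, p = some a → a ∈ σ D := by
  cases p <;> simp [Qst]

/-- the new substitution -/
def sg (d : Dat) (σ : ℕ → Finset ℕ) (M x : ℕ) : Finset ℕ :=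
  if x ∈ d.N ∧ x ≠ d.S then
    σ x ∪ ((Qst σ d.D) ×ˢ (Qst σ d.D)).image fun pq => nm M pq.1 x pq.2
  else σ x

variable {d : Dat} {σ : ℕ → Finset ℕ} {M S' : ℕ}

theorem sub_sg (x : ℕ) : σ x ⊆ sg d σ M x := by
  unfold sg
  split_ifs
  · exact Finset.subset_union_left
  · exact subset_rfl

theorem sg_T (h : d.OK) {x : ℕ} (hx : x ∈ d.T) : sg d σ M x = σ x := by
  unfold sg
  rw [if_neg]
  rintro ⟨h1, -⟩
  exact h.nt x h1 hx

theorem sg_S : sg d σ M d.S = σ d.S := by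
  simp [sg]

theorem nm_sg {p q : Option ℕ} {B : ℕ} (h1 : B ∈ d.N) (h2 : B ≠ d.S) (hp : p ∈ Qst σ d.D)
    (hq : q ∈ Qst σ d.D) : nm M p B q ∈ sg d σ M B := by
  unfold sg
  rw [if_pos ⟨h1, h2⟩]
  refine Finset.mem_union_right _ (Finset.mem_image.2 ⟨(p, q), ?_, rfl⟩)
  exact Finset.mem_product.2 ⟨hp, hq⟩

theorem mem_sg {x z : ℕ} (hz : z ∈ sg d σ M x) : z ∈ σ x ∨ ∃ p q, z = nm M p x q := by
  unfold sg at hz
  split_ifs at hz
  · rcases Finset.mem_union.1 hz with hz | hz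
    · exact Or.inl hz
    · obtain ⟨⟨p, q⟩, -, rfl⟩ := Finset.mem_image.1 hz
      exact Or.inr ⟨p, q, rfl⟩
  · exact Or.inl hz

theorem Im.sg {w' w : List ℕ} (h : Im σ w' w) : Im (sg d σ M) w' w :=
  List.Forall₂.imp (fun _ x hz => sub_sg x hz) h

/-- the productions of the new grammar -/
inductive Good (d : Dat) (σ : ℕ → Finset ℕ) (M S' : ℕ) (P' : List (ℕ × List ℕ)) (T' : ℕ → Prop) :
    ℕ × List ℕ → Prop
  | old {r' r : ℕ × List ℕ} : r' ∈ P' → r ∈ prods d.G1 → r'.1 ∈ σ r.1 → Im σ r'.2 r.2 →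
      Good d σ M S' P' T' r'
  | st {c B : ℕ} {e' : List ℕ} : c ∈ σ d.D → (S', c :: e') ∈ P' → Im σ e' d.T → B ∈ d.B0 →
      Good d σ M S' P' T' (S', nm M (some c) B none :: e')
  | tm {B : ℕ} {u u' : List ℕ} {p q : Option ℕ} : (B, u) ∈ d.R → (∀ x ∈ u, x ∈ d.T) → Im σ u' u →
      p ∈ Qst σ d.D → q ∈ Qst σ d.D → Path P' T' (fun a => a ∈ σ d.D) p u' q →
      Good d σ M S' P' T' (nm M p B q, u')
  | md {B C : ℕ} {u v u' v' : List ℕ} {p p1 q1 q : Option ℕ} : (B, u ++ C :: v) ∈ d.R →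
      (∀ x ∈ u, x ∈ d.T) → (∀ x ∈ v, x ∈ d.T) → C ∈ d.N → C ≠ d.S → Im σ u' u → Im σ v' v →
      p ∈ Qst σ d.D → p1 ∈ Qst σ d.D → q1 ∈ Qst σ d.D → q ∈ Qst σ d.D →
      Path P' T' (fun a => a ∈ σ d.D) p u' p1 → Path P' T' (fun a => a ∈ σ d.D) q1 v' q →
      Good d σ M S' P' T' (nm M p B q, u' ++ nm M p1 C q1 :: v')

theorem good_sub (h : d.OK) (hS : S' ∈ σ d.S) {r' : ℕ × List ℕ} (hg : Good d σ M S' P' T' r') :
    ∃ r ∈ prods d.G1, r'.1 ∈ sg d σ M r.1 ∧ Im (sg d σ M) r'.2 r.2 := by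
  cases hg with
  | old h1 h2 h3 h4 => exact ⟨_, h2, sub_sg _ h3, h4.sg⟩
  | @st c B e' h1 h2 h3 h4 =>
    refine ⟨(d.S, B :: d.T), mem_P1.2 (Or.inr ⟨B, h4, rfl⟩), sub_sg _ hS, .cons ?_ h3.sg⟩
    exact nm_sg (h.b0 B h4).1 (h.b0 B h4).2 (mem_Qst.2 (by simpa using h1)) (mem_Qst.2 (by simp))
  | @tm B u u' p q h1 h2 h3 h4 h5 h6 =>
    refine ⟨(B, u), mem_P1.2 (Or.inl h1), nm_sg (h.r _ h1).1 (h.r _ h1).2.1 h4 h5, h3.sg⟩
  | @md B C u v u' v' p p1 q1 q h1 _ _ h4 h5 h6 h7 h8 h9 h10 h11 _ _ =>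
    refine ⟨(B, u ++ C :: v), mem_P1.2 (Or.inl h1), nm_sg (h.r _ h1).1 (h.r _ h1).2.1 h8 h11, ?_⟩
    exact h6.sg.append (.cons (nm_sg h4 h5 h9 h10) h7.sg)

theorem im_finite (τ : ℕ → Finset ℕ) (w : List ℕ) : {w' | Im τ w' w}.Finite := by
  induction w with
  | nil =>
    refine (Set.finite_singleton ([] : List ℕ)).subset ?_
    intro w' h
    simpa [Im] using h
  | cons x w ih =>
    refine (((τ x).finite_toSet.prod ih).image fun p => p.1 :: p.2).subset ?_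
    intro w' h
    cases h with
    | @cons z _ l _ h1 h2 => exact ⟨(z, l), ⟨h1, h2⟩, rfl⟩

theorem rules_finite (τ : ℕ → Finset ℕ) (P : List (ℕ × List ℕ)) :
    {r' : ℕ × List ℕ | ∃ r ∈ P, r'.1 ∈ τ r.1 ∧ Im τ r'.2 r.2}.Finite := by
  have h1 : {r' : ℕ × List ℕ | ∃ r ∈ P, r'.1 ∈ τ r.1 ∧ Im τ r'.2 r.2} =
      ⋃ r ∈ {r | r ∈ P}, (τ r.1 : Set ℕ) ×ˢ {w' | Im τ w' r.2} := by
    ext r'
    simp only [Set.mem_ofPred_eq, Set.mem_iUnion, Set.mem_prod, Finset.mem_coe, exists_prop]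
  rw [h1]
  exact (List.finite_toSet P).biUnion fun r _ => (τ r.1).finite_toSet.prod (im_finite τ r.2)

theorem exists_list (h : d.OK) (hS : S' ∈ σ d.S) :
    ∃ P'' : List (ℕ × List ℕ), ∀ r', r' ∈ P'' ↔ Good d σ M S' P' T' r' := by
  have h1 : {r' | Good d σ M S' P' T' r'}.Finite :=
    (rules_finite (sg d σ M) (prods d.G1)).subset fun r' hr => good_sub h hS hr
  exact ⟨h1.toFinset.toList, fun r' => by simp⟩

end Pool.Agent.X247.Gf
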