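import Mathlib

set_option autoImplicit false

/-!
# Grammar forms

Context-free grammars over letters that are natural numbers, interpretations, grammatical families,
and a description of the words generated by a linear grammar.
-/

namespace Pool.Agent.X247.Gf

/-- A context-free grammar `(N, T, P, S)`: the list of the nonterminals, the list of the terminals,
the list of the productions (left-hand side, right-hand side) and the start symbol.  Letters are
natural numbers. -/
abbrev Gram : Type := List ℕ × List ℕ × List (ℕ × List ℕ) × ℕ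

/-- the nonterminals -/
def nts (G : Gram) : List ℕ := G.1

/-- the terminals -/
def tms (G : Gram) : List ℕ := G.2.1

/-- the productions -/
def prods (G : Gram) : List (ℕ × List ℕ) := G.2.2.1

/-- the start symbol -/
def start (G : Gram) : ℕ := G.2.2.2

/-- The alphabets `N`, `T` are disjoint, `S ∈ N`, and every production is `A → β` with `A ∈ N` and
`β` a nonempty word over `N ∪ T`. -/
def Proper (G : Gram) : Prop :=
  (∀ x ∈ nts G, x ∉ tms G) ∧ start G ∈ nts G ∧
    ∀ r ∈ prods G, r.1 ∈ nts G ∧ r.2 ≠ [] ∧ ∀ x ∈ r.2, x ∈ nts G ∨ x ∈ tms G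

/-- One derivation step: a letter `A` is replaced by `β`, where `A → β` is a production. -/
def Step (P : List (ℕ × List ℕ)) (x y : List ℕ) : Prop :=
  ∃ (u v : List ℕ) (r : ℕ × List ℕ), r ∈ P ∧ x = u ++ r.1 :: v ∧ y = u ++ r.2 ++ v

/-- The language of a grammar: the words over `T` that are derived from `S`. -/
def lang (G : Gram) : Set (List ℕ) :=
  {w | (∀ x ∈ w, x ∈ tms G) ∧ Relation.ReflTransGen (Step (prods G)) [start G] w}

/-- `G'` is an interpretation of `G`. -/
def Interp (G G' : Gram) : Prop :=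
  ∃ σ : ℕ → Finset ℕ,
    (∀ x y : ℕ, x ∈ nts G ∨ x ∈ tms G → y ∈ nts G ∨ y ∈ tms G → x ≠ y → Disjoint (σ x) (σ y)) ∧
    (∀ z, z ∈ nts G' ↔ ∃ x ∈ nts G, z ∈ σ x) ∧
    (∀ z, z ∈ tms G' ↔ ∃ x ∈ tms G, z ∈ σ x) ∧
    start G' ∈ σ (start G) ∧
    ∀ r' ∈ prods G', ∃ r ∈ prods G, r'.1 ∈ σ r.1 ∧ List.Forall₂ (fun z x => z ∈ σ x) r'.2 r.2

/-- The grammatical family of `G`. -/
def Fam (G : Gram) : Set (Set (List ℕ)) := {L | ∃ G' : Gram, Interp G G' ∧ lang G' = L}

/-- Every right-hand side contains at most one occurrence of a nonterminal. -/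
def Linear (G : Gram) : Prop :=
  ∀ r ∈ prods G, (r.2.filter fun x => decide (x ∈ nts G)).length ≤ 1

/-! ### linear grammars -/

/-- words generated by a nonterminal of a linear grammar -/
inductive Gn (P : List (ℕ × List ℕ)) (T : ℕ → Prop) : ℕ → List ℕ → Prop
  | t {A : ℕ} {β : List ℕ} : (A, β) ∈ P → (∀ x ∈ β, T x) → Gn P T A β
  | s {A B : ℕ} {u v w : List ℕ} : (A, u ++ B :: v) ∈ P → (∀ x ∈ u, T x) → (∀ x ∈ v, T x) →
      Gn P T B w → Gn P T A (u ++ w ++ v)

theorem Gn.all {P : List (ℕ × List ℕ)} {T : ℕ → Prop} {A : ℕ} {w : List ℕ} (h : Gn P T A w) :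
    ∀ x ∈ w, T x := by
  induction h with
  | t _ h => exact h
  | s _ hu hv _ ih =>
    intro x hx
    rcases List.mem_append.1 hx with hx | hx
    · rcases List.mem_append.1 hx with hx | hx
      · exact hu x hx
      · exact ih x hx
    · exact hv x hx

theorem Step.ctx {P : List (ℕ × List ℕ)} {x y : List ℕ} (h : Step P x y) (u v : List ℕ) :
    Step P (u ++ x ++ v) (u ++ y ++ v) := by
  obtain ⟨a, b, r, hr, rfl, rfl⟩ := h
  exact ⟨u ++ a, b ++ v, r, hr, by simp, by simp⟩

theorem steps_ctx {P : List (ℕ × List ℕ)} {x y : List ℕ} (h : Relation.ReflTransGen (Step P) x y)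
    (u v : List ℕ) : Relation.ReflTransGen (Step P) (u ++ x ++ v) (u ++ y ++ v) := by
  induction h with
  | refl => exact .refl
  | tail _ h ih => exact ih.tail (h.ctx u v)

theorem Gn.steps {P : List (ℕ × List ℕ)} {T : ℕ → Prop} {A : ℕ} {w : List ℕ} (h : Gn P T A w) :
    Relation.ReflTransGen (Step P) [A] w := by
  induction h with
  | @t A β h _ => exact .single ⟨[], [], (A, β), h, by simp, by simp⟩
  | @s A B u v w h _ _ _ ih =>
    refine Relation.ReflTransGen.head (b := u ++ [B] ++ v)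
      ⟨[], [], (A, u ++ B :: v), h, by simp, by simp⟩ ?_
    exact steps_ctx ih u v

/-- All productions are linear: the right-hand side is terminal, or contains one nonterminal. -/
def LinP (P : List (ℕ × List ℕ)) (N T : ℕ → Prop) : Prop :=
  ∀ r ∈ P, N r.1 ∧ ((∀ x ∈ r.2, T x) ∨
    ∃ (u : List ℕ) (B : ℕ) (v : List ℕ), r.2 = u ++ B :: v ∧ (∀ x ∈ u, T x) ∧ (∀ x ∈ v, T x) ∧ N B)

theorem split_unique {T : ℕ → Prop} : ∀ {u v x y : List ℕ} {A B : ℕ}, (∀ x ∈ u, T x) →
    (∀ x ∈ v, T x) → ¬ T A → ¬ T B → u ++ A :: v = x ++ B :: y → u = x ∧ A = B ∧ v = y := by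
  intro u
  induction u with
  | nil =>
    intro v x y A B _ hv hA hB h
    cases x with
    | nil => simpa using h
    | cons c x =>
      simp only [List.nil_append, List.cons_append, List.cons.injEq] at h
      exact absurd (hv B (by rw [h.2]; simp)) hB
  | cons a u ih =>
    intro v x y A B hu hv hA hB h
    cases x with
    | nil =>
      simp only [List.nil_append, List.cons_append, List.cons.injEq] at h
      exact absurd (h.1 ▸ hu a (by simp)) hB
    | cons c x =>
      simp only [List.cons_append, List.cons.injEq] at h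
      obtain ⟨h1, h2, h3⟩ := ih (fun x hx => hu x (by simp [hx])) hv hA hB h.2
      exact ⟨by rw [h.1, h1], h2, h3⟩

theorem gn_of_steps {P : List (ℕ × List ℕ)} {N T : ℕ → Prop} (hNT : ∀ x, N x → ¬ T x)
    (hP : LinP P N T) {x w : List ℕ} (h : Relation.ReflTransGen (Step P) x w)
    (hw : ∀ x ∈ w, T x) :
    ((∀ z ∈ x, T z) → w = x) ∧
    ∀ (u : List ℕ) (A : ℕ) (v : List ℕ), x = u ++ A :: v → (∀ z ∈ u, T z) → (∀ z ∈ v, T z) → N A →
      ∃ w', w = u ++ w' ++ v ∧ Gn P T A w' := by
  induction h using Relation.ReflTransGen.head_induction_on with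
  | refl =>
    refine ⟨fun _ => rfl, ?_⟩
    rintro u A v rfl _ _ hA
    exact absurd (hw A (by simp)) (hNT A hA)
  | head hs _ ih =>
    obtain ⟨a, b, ⟨B, β⟩, hr, rfl, rfl⟩ := hs
    have hB := (hP _ hr).1
    refine ⟨fun hx => absurd (hx B (by simp)) (hNT B hB), ?_⟩
    intro u A v he hu hv hA
    obtain ⟨rfl, rfl, rfl⟩ := split_unique hu hv (hNT A hA) (hNT B hB) he.symm
    rcases (hP _ hr).2 with h | ⟨u', C, v', h, hu', hv', hC⟩
    · refine ⟨β, ?_, .t hr h⟩
      refine ih.1 ?_
      intro z hz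
      simp only [List.mem_append] at hz
      rcases hz with (hz | hz) | hz
      · exact hu z hz
      · exact h z hz
      · exact hv z hz
    · simp only at h
      subst h
      obtain ⟨w', h1, h2⟩ := ih.2 (u ++ u') C (v' ++ v) (by simp)
        (fun z hz => (List.mem_append.1 hz).elim (hu z) (hu' z))
        (fun z hz => (List.mem_append.1 hz).elim (hv' z) (hv z)) hC
      exact ⟨u' ++ w' ++ v', by rw [h1]; simp, .s hr hu' hv' h2⟩

theorem mem_lang_iff {G : Gram} (hNT : ∀ x ∈ nts G, x ∉ tms G) (hS : start G ∈ nts G)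
    (hP : LinP (prods G) (fun x => x ∈ nts G) (fun x => x ∈ tms G)) (w : List ℕ) :
    w ∈ lang G ↔ Gn (prods G) (fun x => x ∈ tms G) (start G) w := by
  constructor
  · rintro ⟨h1, h2⟩
    obtain ⟨w', h3, h4⟩ := (gn_of_steps hNT hP h2 h1).2 [] (start G) [] rfl (by simp) (by simp) hS
    simp only [List.nil_append, List.append_nil] at h3
    exact h3 ▸ h4
  · intro h
    exact ⟨h.all, h.steps⟩

end Pool.Agent.X247.Gf
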