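import Pool.Agent.X247.Gf.Build

set_option autoImplicit false

/-!
# The family of the bigger grammar
-/

namespace Pool.Agent.X247.Gf

structure Ctx (d : Dat) (σ : ℕ → Finset ℕ) (M S' : ℕ) (P' : List (ℕ × List ℕ)) (T' : ℕ → Prop)
    (P'' : List (ℕ × List ℕ)) : Prop where
  ok : d.OK
  it : Itp d σ (prods d.G2) P' T'
  hS : S' ∈ σ d.S
  hM : ∀ x, (x ∈ d.N ∨ x ∈ d.T) → ∀ z ∈ σ x, z < M
  hP : ∀ r', r' ∈ P'' ↔ Good d σ M S' P' T' r'

variable {d : Dat} {σ : ℕ → Finset ℕ} {M S' : ℕ} {P' : List (ℕ × List ℕ)} {T' : ℕ → Prop}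
  {P'' : List (ℕ × List ℕ)}

namespace Ctx

theorem lt_T (c : Ctx d σ M S' P' T' P'') {z : ℕ} (hz : T' z) : z < M := by
  obtain ⟨x, hx, h⟩ := (c.it.tm z).1 hz
  exact c.hM x (Or.inr hx) z h

theorem nm_T (c : Ctx d σ M S' P' T' P'') (p : Option ℕ) (B : ℕ) (q : Option ℕ) :
    ¬ T' (nm M p B q) := fun h => absurd (c.lt_T h) (not_lt.2 (le_nm M p B q))

theorem not_T (c : Ctx d σ M S' P' T' P'') {x z : ℕ} (hx : x ∈ d.N) (hz : z ∈ σ x) : ¬ T' z :=
  fun h => c.ok.nt x hx (c.it.tT c.ok (Or.inl hx) hz h)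

theorem nm_ne (c : Ctx d σ M S' P' T' P'') {x z : ℕ} (hx : x ∈ d.N) (hz : z ∈ σ x)
    (p : Option ℕ) (B : ℕ) (q : Option ℕ) : z ≠ nm M p B q := by
  intro h
  have h1 := c.hM x (Or.inl hx) z hz
  have h2 := le_nm M p B q
  omega

theorem lhs'' (c : Ctx d σ M S' P' T' P'') {r' : ℕ × List ℕ} (h : r' ∈ P'') : ¬ T' r'.1 := by
  cases (c.hP _).1 h with
  | old h1 _ _ _ => exact c.it.lhs_not c.ok h1
  | st _ _ _ _ => exact c.not_T c.ok.s c.hS
  | tm _ _ _ _ _ _ => exact c.nm_T _ _ _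
  | md _ _ _ _ _ _ _ _ _ _ _ _ _ => exact c.nm_T _ _ _

theorem gn'' (c : Ctx d σ M S' P' T' P'') {A : ℕ} {w : List ℕ} (h : Gn P'' T' A w) : ¬ T' A := by
  obtain ⟨β, hβ⟩ := h.lhs
  exact c.lhs'' hβ

/-- inversion of the productions of the universal nonterminals -/
theorem inv_D (c : Ctx d σ M S' P' T' P'') {a : ℕ} {β : List ℕ} (ha : a ∈ σ d.D)
    (h : (a, β) ∈ P') : (∃ x, β = [x] ∧ T' x) ∨ ∃ x a', β = [x, a'] ∧ T' x ∧ a' ∈ σ d.D := by
  obtain ⟨⟨A, γ⟩, h1, h2, h3⟩ := c.it.pr _ h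
  have hA := (c.ok.lin _ h1).1
  obtain rfl := c.it.dj.eq (Or.inl hA) (Or.inl c.ok.dn) h2 ha
  rcases mem_P2.1 h1 with h1 | ⟨B, -, h4⟩
  · obtain ⟨x, hx, rfl | rfl⟩ := c.ok.d2 γ h1
    · left
      cases h3 with
      | @cons z _ _ _ h4 h5 =>
      cases h5
      exact ⟨z, rfl, (c.it.tm z).2 ⟨x, hx, h4⟩⟩
    · right
      cases h3 with
      | @cons z _ _ _ h4 h5 =>
      cases h5 with
      | @cons z' _ _ _ h6 h7 =>
      cases h7
      exact ⟨z, z', rfl, (c.it.tm z).2 ⟨x, hx, h4⟩, h6⟩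
  · exact absurd (congrArg Prod.fst h4) c.ok.ds

theorem path_of_gn (c : Ctx d σ M S' P' T' P'') {a : ℕ} {w : List ℕ} (h : Gn P' T' a w)
    (ha : a ∈ σ d.D) : Path P' T' (fun a => a ∈ σ d.D) (some a) w none := by
  induction h with
  | @t A β h1 h2 =>
    rcases c.inv_D ha h1 with ⟨x, rfl, hx⟩ | ⟨x, a', rfl, hx, ha'⟩
    · exact .fin h1 ha hx
    · exact absurd (h2 a' (by simp)) (c.not_T c.ok.dn ha')
  | @s A B u v w h1 hu hv hg ih =>
    have hB := c.it.gn_not c.ok hg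
    rcases c.inv_D ha h1 with ⟨x, h3, hx⟩ | ⟨x, a', h3, hx, ha'⟩
    · have : B ∈ [x] := by rw [← h3]; simp
      simp only [List.mem_singleton] at this
      exact absurd (this ▸ hx) hB
    · have h4 : u ++ B :: v = [x] ++ a' :: [] := h3
      obtain ⟨rfl, rfl, rfl⟩ := split_unique hu hv hB (c.not_T c.ok.dn ha') h4
      have := Path.mid h1 ha ha' hx (ih ha')
      simpa using this

theorem gn_of_path (c : Ctx d σ M S' P' T' P'') {p q : Option ℕ} {w : List ℕ}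
    (h : Path P' T' (fun a => a ∈ σ d.D) p w q) :
    ∀ a, p = some a → q = none → Gn P' T' a w := by
  induction h with
  | nil p => intro a h1 h2; rw [h1] at h2; simp at h2
  | @mid p x p' w q h1 h2 h3 h4 _ ih =>
    intro a ha hq
    obtain rfl : p = a := by simpa using ha
    have := Gn.s (T := T') (u := [x]) (v := []) h1 (by simpa using h4) (by simp) (ih p' rfl hq)
    simpa using this
  | @fin p x h1 h2 h3 =>
    intro a ha hq
    obtain rfl : p = a := by simpa using ha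
    exact .t h1 (by simpa using h3)

theorem im_T (c : Ctx d σ M S' P' T' P'') {w' w : List ℕ} (h : Im σ w' w)
    (hw : ∀ x ∈ w, x ∈ d.T) : ∀ z ∈ w', T' z := by
  intro z hz
  obtain ⟨x, hx, hzx⟩ := Im.mem_left h hz
  exact (c.it.tm z).2 ⟨x, hw x hx, hzx⟩

/-- the triple construction, one direction -/
theorem lift (c : Ctx d σ M S' P' T' P'') {B : ℕ} {u : List ℕ} (h : Gn d.R d.TT B u) :
    ∀ (w : List ℕ) (p q : Option ℕ), Im σ w u → p ∈ Qst σ d.D → q ∈ Qst σ d.D →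
      Path P' T' (fun a => a ∈ σ d.D) p w q → Gn P'' T' (nm M p B q) w := by
  induction h with
  | @t B β h1 h2 =>
    intro w p q hw hp hq hpath
    exact .t ((c.hP _).2 (.tm h1 h2 hw hp hq hpath)) (c.im_T hw h2)
  | @s B C u v w h1 hu hv hg ih =>
    intro W p q hW hp hq hpath
    obtain ⟨a, v', rfl, h3, hv'⟩ := Im.split_right hW
    obtain ⟨u', w', rfl, hu', hw'⟩ := Im.split_right h3
    obtain ⟨q1, hq1, h4, h5⟩ := hpath.split (mem_Qst.1 hp)
    obtain ⟨p1, hp1, h6, h7⟩ := h4.split (mem_Qst.1 hp)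
    obtain ⟨β, hβ⟩ := hg.lhs
    obtain ⟨hC1, hC2, -, -⟩ := c.ok.r _ hβ
    refine .s ((c.hP _).2 (.md h1 hu hv hC1 hC2 hu' hv' hp (mem_Qst.2 hp1) (mem_Qst.2 hq1) hq h6 h5))
      (c.im_T hu' hu) (c.im_T hv' hv) ?_
    exact ih w' p1 q1 hw' (mem_Qst.2 hp1) (mem_Qst.2 hq1) h7

/-- the new grammar generates nothing new -/
theorem down'' (c : Ctx d σ M S' P' T' P'') {A : ℕ} {w : List ℕ} (h : Gn P'' T' A w) :
    (∀ p B q, A = nm M p B q → Path P' T' (fun a => a ∈ σ d.D) p w q) ∧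
    (∀ B, B ∈ d.N → B ≠ d.S → A ∈ σ B → Gn P' T' A w) := by
  induction h with
  | @t A β h1 h2 =>
    generalize hr : (A, β) = r' at h1
    cases (c.hP _).1 h1 with
    | old h3 h4 h5 h6 =>
      subst hr
      refine ⟨fun p B q he => ?_, fun B _ _ _ => .t h3 h2⟩
      exact absurd he (c.nm_ne (c.ok.lin _ (P1_sub h4)).1 h5 p B q)
    | @st a B e' h3 h4 h5 h6 =>
      obtain ⟨rfl, rfl⟩ := Prod.mk.inj hr
      exact absurd (h2 (nm M (some a) B none) List.mem_cons_self) (c.nm_T _ _ _)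
    | @tm B u u' p q h3 h4 h5 h6 h7 h8 =>
      obtain ⟨rfl, rfl⟩ := Prod.mk.inj hr
      refine ⟨fun p' B' q' he => ?_, fun B' hB' _ hA => ?_⟩
      · obtain ⟨rfl, rfl, rfl⟩ := nm_inj he
        exact h8
      · exact absurd rfl (c.nm_ne hB' hA p B q)
    | @md B C u v u' v' p p1 q1 q _ _ _ _ _ _ _ _ _ _ _ _ _ =>
      obtain ⟨rfl, rfl⟩ := Prod.mk.inj hr
      exact absurd (h2 (nm M p1 C q1) (by simp)) (c.nm_T _ _ _)
  | @s A E u v w h1 hu hv hg ih =>
    have hE := c.gn'' hg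
    generalize hr : (A, u ++ E :: v) = r' at h1
    cases (c.hP _).1 h1 with
    | @old _ r h3 h4 h5 h6 =>
      subst hr
      refine ⟨fun p B q he => ?_, fun B hB1 hB2 hB3 => ?_⟩
      · exact absurd he (c.nm_ne (c.ok.lin _ (P1_sub h4)).1 h5 p B q)
      · obtain ⟨C, hC, hEC⟩ := Im.mem_left h6 (z := E) (by simp)
        have hrB : r.1 = B :=
          c.it.dj.eq (Or.inl (c.ok.lin _ (P1_sub h4)).1) (Or.inl hB1) h5 hB3
        have hrR : r ∈ d.R := by
          rcases mem_P1.1 h4 with h7 | ⟨B', -, h7⟩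
          · exact h7
          · rw [h7] at hrB
            exact absurd hrB.symm hB2
        rcases c.ok.rhs hrR hC with ⟨h7, h8⟩ | h7
        · exact .s h3 hu hv (ih.2 C h7 h8 hEC)
        · exact absurd ((c.it.tm E).2 ⟨C, h7, hEC⟩) hE
    | @st a B e' h3 h4 h5 h6 =>
      obtain ⟨rfl, -⟩ := Prod.mk.inj hr
      refine ⟨fun p B' q he => absurd he (c.nm_ne c.ok.s c.hS p B' q), fun B' h7 h8 h9 => ?_⟩
      exact absurd (c.it.dj.eq (Or.inl h7) (Or.inl c.ok.s) h9 c.hS) h8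
    | @tm B u1 u' p q h3 h4 h5 h6 h7 h8 =>
      obtain ⟨rfl, rfl⟩ := Prod.mk.inj hr
      exact absurd (c.im_T h5 h4 E (by simp)) hE
    | @md B C u1 v1 u' v' p p1 q1 q h3 h4 h5 h6 h7 h8 h9 h10 h11 h12 h13 h14 h15 =>
      obtain ⟨rfl, h16⟩ := Prod.mk.inj hr
      obtain ⟨rfl, rfl, rfl⟩ := split_unique hu hv hE (c.nm_T p1 C q1) h16
      refine ⟨fun p' B' q' he => ?_, fun B' hB' _ hA => ?_⟩
      · obtain ⟨rfl, rfl, rfl⟩ := nm_inj he
        exact (h14.append (ih.1 _ _ _ rfl)).append h15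
      · exact absurd rfl (c.nm_ne hB' hA p B q)

/-- the new grammar contains the old one -/
theorem up'' (c : Ctx d σ M S' P' T' P'') {A : ℕ} {w : List ℕ} (h : Gn P' T' A w) :
    ∀ B, B ∈ d.N → B ≠ d.S → A ∈ σ B → Gn P'' T' A w := by
  induction h with
  | @t A β h1 h2 =>
    intro B hB1 hB2 hA
    obtain ⟨r, h3, h4, h5⟩ := c.it.pr _ h1
    have hrB : r.1 = B := c.it.dj.eq (Or.inl (c.ok.lin _ h3).1) (Or.inl hB1) h4 hA
    have hrR : r ∈ d.R := by
      rcases mem_P2.1 h3 with h7 | ⟨B', -, h7⟩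
      · exact h7
      · rw [h7] at hrB
        exact absurd hrB.symm hB2
    exact .t ((c.hP _).2 (.old h1 (mem_P1.2 (Or.inl hrR)) h4 h5)) h2
  | @s A E u v w h1 hu hv hg ih =>
    intro B hB1 hB2 hA
    obtain ⟨r, h3, h4, h5⟩ := c.it.pr _ h1
    have hrB : r.1 = B := c.it.dj.eq (Or.inl (c.ok.lin _ h3).1) (Or.inl hB1) h4 hA
    have hrR : r ∈ d.R := by
      rcases mem_P2.1 h3 with h7 | ⟨B', -, h7⟩
      · exact h7
      · rw [h7] at hrB
        exact absurd hrB.symm hB2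
    obtain ⟨C, hC, hEC⟩ := Im.mem_left h5 (z := E) (by simp)
    rcases c.ok.rhs hrR hC with ⟨h7, h8⟩ | h7
    · exact .s ((c.hP _).2 (.old h1 (mem_P1.2 (Or.inl hrR)) h4 h5)) hu hv (ih C h7 h8 hEC)
    · exact absurd ((c.it.tm E).2 ⟨C, h7, hEC⟩) (c.it.gn_not c.ok hg)

/-- the words of the start symbols -/
theorem start_iff (c : Ctx d σ M S' P' T' P'')
    (hu : ∀ w : List ℕ, w ≠ [] → (∀ x ∈ w, x ∈ d.T) → ∃ B ∈ d.B0, Gn d.R d.TT B w) (w : List ℕ) :
    Gn P'' T' S' w ↔ Gn P' T' S' w := by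
  constructor
  · intro h
    generalize hA : S' = A at h
    cases h with
    | t h1 h2 =>
      generalize hr : (A, w) = r' at h1
      cases (c.hP _).1 h1 with
      | old h3 h4 h5 h6 =>
        subst hr
        exact .t h3 h2
      | @st a B e' h3 h4 h5 h6 =>
        obtain ⟨rfl, rfl⟩ := Prod.mk.inj hr
        exact absurd (h2 (nm M (some a) B none) List.mem_cons_self) (c.nm_T _ _ _)
      | @tm B u u' p q h3 h4 h5 h6 h7 h8 =>
        obtain ⟨rfl, rfl⟩ := Prod.mk.inj hr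
        exact absurd hA (c.nm_ne c.ok.s c.hS _ _ _)
      | @md B C u v u' v' p p1 q1 q _ _ _ _ _ _ _ _ _ _ _ _ _ =>
        obtain ⟨rfl, rfl⟩ := Prod.mk.inj hr
        exact absurd hA (c.nm_ne c.ok.s c.hS _ _ _)
    | @s _ E u v w h1 hu hv hg =>
      have hE := c.gn'' hg
      generalize hr : (A, u ++ E :: v) = r' at h1
      cases (c.hP _).1 h1 with
      | @old _ r h3 h4 h5 h6 =>
        subst hr hA
        have hrB : r.1 = d.S := c.it.dj.eq (Or.inl (c.ok.lin _ (P1_sub h4)).1) (Or.inl c.ok.s) h5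
          c.hS
        rcases mem_P1.1 h4 with h7 | ⟨B, hB, rfl⟩
        · exact absurd hrB (c.ok.r _ h7).2.1
        · obtain ⟨C, hC, hEC⟩ := Im.mem_left h6 (z := E) (by simp)
          rcases List.mem_cons.1 hC with rfl | hC
          · exact .s h3 hu hv ((c.down'' hg).2 C (c.ok.b0 C hB).1 (c.ok.b0 C hB).2 hEC)
          · exact absurd ((c.it.tm E).2 ⟨C, hC, hEC⟩) hE
      | @st a B e' h3 h4 h5 h6 =>
        obtain ⟨rfl, h7⟩ := Prod.mk.inj hr
        obtain ⟨rfl, rfl, rfl⟩ := split_unique (x := []) hu hv hE (c.nm_T _ _ _) h7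
        have h8 := (c.down'' hg).1 _ _ _ rfl
        have h9 := c.gn_of_path h8 a rfl rfl
        exact .s (u := []) h4 hu hv h9
      | @tm B u u' p q h3 h4 h5 h6 h7 h8 =>
        obtain ⟨rfl, -⟩ := Prod.mk.inj hr
        exact absurd hA (c.nm_ne c.ok.s c.hS _ _ _)
      | @md B C u v u' v' p p1 q1 q _ _ _ _ _ _ _ _ _ _ _ _ _ =>
        obtain ⟨rfl, -⟩ := Prod.mk.inj hr
        exact absurd hA (c.nm_ne c.ok.s c.hS _ _ _)
  · intro h
    generalize hA : S' = A at h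
    cases h with
    | t h1 h2 =>
      subst hA
      obtain ⟨r, h3, h4, h5⟩ := c.it.pr _ h1
      have hrB : r.1 = d.S := c.it.dj.eq (Or.inl (c.ok.lin _ h3).1) (Or.inl c.ok.s) h4 c.hS
      rcases mem_P2.1 h3 with h7 | ⟨B, hB, rfl⟩
      · exact absurd hrB (c.ok.r _ h7).2.1
      · cases h5 with
        | @cons b' _ e' _ h8 h9 =>
        have hBN : B ∈ d.N := by
          rcases hB with rfl | hB
          · exact c.ok.dn
          · exact (c.ok.b0 B hB).1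
        exact absurd (h2 b' (by simp)) (c.not_T hBN h8)
    | @s _ E u v w h1 hu1 hv1 hg =>
      subst hA
      obtain ⟨r, h3, h4, h5⟩ := c.it.pr _ h1
      have hrB : r.1 = d.S := c.it.dj.eq (Or.inl (c.ok.lin _ h3).1) (Or.inl c.ok.s) h4 c.hS
      rcases mem_P2.1 h3 with h7 | ⟨B, hB, rfl⟩
      · exact absurd hrB (c.ok.r _ h7).2.1
      · have hE := c.it.gn_not c.ok hg
        generalize hβ : u ++ E :: v = β at h5
        cases h5 with
        | @cons b' _ e' _ h8 h9 =>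
        have hBN : B ∈ d.N ∧ B ≠ d.S := by
          rcases hB with rfl | hB
          · exact ⟨c.ok.dn, c.ok.ds⟩
          · exact c.ok.b0 B hB
        obtain ⟨rfl, rfl, rfl⟩ := split_unique (x := []) hu1 hv1 hE (c.not_T hBN.1 h8) hβ
        rcases hB with rfl | hB
        · have h10 := c.path_of_gn hg h8
          have hwT : ∀ x ∈ w, T' x := hg.all
          have hex : ∀ w : List ℕ, (∀ x ∈ w, T' x) → ∃ w0, Im σ w w0 ∧ ∀ x ∈ w0, x ∈ d.T := by
            intro w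
            induction w with
            | nil => intro _; exact ⟨[], .nil, by simp⟩
            | cons z w ih =>
              intro hz
              obtain ⟨x, hx, hzx⟩ := (c.it.tm z).1 (hz z (by simp))
              obtain ⟨w0, h11, h12⟩ := ih fun y hy => hz y (by simp [hy])
              refine ⟨x :: w0, .cons hzx h11, ?_⟩
              intro y hy
              rcases List.mem_cons.1 hy with rfl | hy
              · exact hx
              · exact h12 y hy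
          obtain ⟨w0, h11, h12⟩ := hex w hwT
          have hne : w ≠ [] := by
            rintro rfl
            cases h10
          have hne0 : w0 ≠ [] := by
            rintro rfl
            cases h11
            exact hne rfl
          obtain ⟨B, hB, hgB⟩ := hu w0 hne0 h12
          have h13 := c.lift hgB w (some E) none h11 (mem_Qst.2 (by simpa using h8))
            (mem_Qst.2 (by simp)) h10
          have h14 := (c.hP _).2 (.st h8 h1 h9 hB)
          exact .s (u := []) h14 hu1 hv1 h13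
        · refine .s ((c.hP _).2 (.old h1 (mem_P1.2 (Or.inr ⟨B, hB, rfl⟩)) h4 (.cons h8 h9))) hu1 hv1
            (c.up'' hg B hBN.1 hBN.2 h8)

end Ctx

theorem lin_of_itp (h : d.OK) {τ : ℕ → Finset ℕ} {P P1 : List (ℕ × List ℕ)} {N1 T1 : ℕ → Prop}
    (hN : ∀ x ∈ d.N, ∀ z ∈ τ x, N1 z) (hT : ∀ x ∈ d.T, ∀ z ∈ τ x, T1 z)
    (hP : ∀ r ∈ P, r ∈ prods d.G2)
    (hP1 : ∀ r' ∈ P1, ∃ r ∈ P, r'.1 ∈ τ r.1 ∧ Im τ r'.2 r.2) : LinP P1 N1 T1 := by
  intro r' hr'
  obtain ⟨r, h4, h5, h6⟩ := hP1 r' hr'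
  have h7 := h.lin r (hP _ h4)
  refine ⟨hN r.1 h7.1 _ h5, ?_⟩
  rcases h7.2 with h8 | ⟨u, B, v, h8, h9, h10, h11⟩
  · refine Or.inl fun z hz => ?_
    obtain ⟨x, hx, hzx⟩ := Im.mem_left h6 hz
    exact hT x (h8 x hx) z hzx
  · rw [h8] at h6
    obtain ⟨a, c, h12, h13, h14⟩ := Im.split_right h6
    cases h14 with
    | @cons B' _ v' _ h15 h16 =>
    refine Or.inr ⟨a, B', v', h12, fun z hz => ?_, fun z hz => ?_, hN B h11 B' h15⟩
    · obtain ⟨x, hx, hzx⟩ := Im.mem_left h13 hz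
      exact hT x (h9 x hx) z hzx
    · obtain ⟨x, hx, hzx⟩ := Im.mem_left h16 hz
      exact hT x (h10 x hx) z hzx

/-- universality implies family equivalence -/
theorem Dat.OK.fam_of_univ (h : d.OK)
    (hu : ∀ w : List ℕ, w ≠ [] → (∀ x ∈ w, x ∈ d.T) → ∃ B ∈ d.B0, Gn d.R d.TT B w) :
    Fam d.G1 = Fam d.G2 := by
  classical
  refine Set.Subset.antisymm ?_ ?_
  · rintro L ⟨G', ⟨σ, hd, hN, hT, hS, hP⟩, hl⟩
    refine ⟨G', ⟨σ, hd, hN, hT, hS, fun r' hr' => ?_⟩, hl⟩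
    obtain ⟨r, h1, h2⟩ := hP r' hr'
    exact ⟨r, P1_sub h1, h2⟩
  · rintro L ⟨G', ⟨σ, hd, hN, hT, hS, hP⟩, hl⟩
    let M : ℕ := ((d.N ++ d.T).toFinset.sup fun x => (σ x).sup id) + 1
    have hM : ∀ x, (x ∈ d.N ∨ x ∈ d.T) → ∀ z ∈ σ x, z < M := by
      intro x hx z hz
      have h1 : z ≤ (σ x).sup id := Finset.le_sup (f := id) hz
      have h2 : (σ x).sup id ≤ (d.N ++ d.T).toFinset.sup fun x => (σ x).sup id :=
        Finset.le_sup (f := fun x => (σ x).sup id) (by simpa using hx)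
      exact Nat.lt_succ_of_le (h1.trans h2)
    obtain ⟨P'', hP''⟩ := exists_list (T' := fun x => x ∈ tms G') (P' := prods G') (M := M) h hS
    have it : Itp d σ (prods d.G2) (prods G') (fun x => x ∈ tms G') :=
      ⟨hd, hT, fun r hr => hr, hP⟩
    have c : Ctx d σ M (start G') (prods G') (fun x => x ∈ tms G') P'' := ⟨h, it, hS, hM, hP''⟩
    let N'' : List ℕ := (d.N.toFinset.biUnion (sg d σ M)).toList
    have hN'' : ∀ z, z ∈ N'' ↔ ∃ x ∈ d.N, z ∈ sg d σ M x := by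
      intro z
      simp [N'']
    let G'' : Gram := (N'', tms G', P'', start G')
    have hdis : Disj d (sg d σ M) := by
      intro x y hx hy hne
      rw [Finset.disjoint_left]
      intro z h1 h2
      rcases mem_sg h1 with h3 | ⟨p, q, rfl⟩
      · rcases mem_sg h2 with h4 | ⟨p, q, rfl⟩
        · exact hne (it.dj.eq hx hy h3 h4)
        · have := hM x hx _ h3
          have := le_nm M p y q
          omega
      · rcases mem_sg h2 with h4 | ⟨p', q', h5⟩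
        · have := hM y hy _ h4
          have := le_nm M p x q
          omega
        · exact hne (nm_inj h5).2.1
    have hgood : ∀ r' ∈ P'', ∃ r ∈ prods d.G1, r'.1 ∈ sg d σ M r.1 ∧ Im (sg d σ M) r'.2 r.2 :=
      fun r' hr' => good_sub h hS ((hP'' r').1 hr')
    have hI : Interp d.G1 G'' := by
      refine ⟨sg d σ M, hdis, hN'', ?_, sub_sg _ hS, hgood⟩
      intro z
      refine (hT z).trans ⟨?_, ?_⟩
      · rintro ⟨x, hx, hz⟩
        exact ⟨x, hx, sub_sg _ hz⟩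
      · rintro ⟨x, hx, hz⟩
        rw [sg_T h hx] at hz
        exact ⟨x, hx, hz⟩
    refine ⟨G'', hI, ?_⟩
    rw [← hl]
    have hTT : ∀ x ∈ d.T, ∀ z ∈ sg d σ M x, z ∈ tms G' := by
      intro x hx z hz
      rw [sg_T h hx] at hz
      exact (hT z).2 ⟨x, hx, hz⟩
    ext w
    rw [mem_lang_iff (G := G''), mem_lang_iff (G := G')]
    · exact c.start_iff hu w
    · intro z hz hz'
      obtain ⟨x, hx, hzx⟩ := (hN z).1 hz
      exact c.not_T hx hzx hz'
    · exact (hN _).2 ⟨d.S, h.s, hS⟩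
    · exact lin_of_itp h (fun x hx z hz => (hN z).2 ⟨x, hx, hz⟩) (fun x hx z hz => (hT z).2 ⟨x, hx, hz⟩)
        (fun r hr => hr) hP
    · intro z hz hz'
      obtain ⟨x, hx, hzx⟩ := (hN'' z).1 hz
      rcases mem_sg hzx with h3 | ⟨p, q, rfl⟩
      · exact c.not_T hx h3 hz'
      · exact c.nm_T _ _ _ hz'
    · exact (hN'' _).2 ⟨d.S, h.s, sub_sg _ hS⟩
    · exact lin_of_itp h (fun x hx z hz => (hN'' z).2 ⟨x, hx, hz⟩) hTT (fun r hr => P1_sub hr) hgood

theorem Dat.OK.fam_iff (h : d.OK) : Fam d.G1 = Fam d.G2 ↔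
    ∀ w : List ℕ, w ≠ [] → (∀ x ∈ w, x ∈ d.T) → ∃ B ∈ d.B0, Gn d.R d.TT B w :=
  ⟨fun he _ hw hT => h.univ_of_fam he hw hT, h.fam_of_univ⟩

end Pool.Agent.X247.Gf
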