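import Pool.Agent.X247.Gf.Main

set_option autoImplicit false

/-!
# The reduction is correct and computable
-/

namespace Pool.Agent.X247.Gf

section

variable {m k : ℕ} {g h : Fin k → List (Fin m)} {w : List (Fin m)}

theorem mem_N_cg {v : List (Fin m)} (hv : Vg g v) : cg m k v ∈ (dat g h w).N := by
  cases v with
  | nil => simp [dat]
  | cons x v =>
    have h1 : (cg m k (x :: v), [tx m k x, cg m k v]) ∈ rules g h w :=
      mem_rules.2 (Or.inr (Or.inl ⟨x :: v, hv, rfl, Or.inl rfl⟩))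
    have h2 := List.mem_map_of_mem (f := Prod.fst) h1
    simp only [dat, List.mem_cons]
    exact Or.inr (Or.inr (Or.inr (Or.inr h2)))

theorem mem_N_ch {v : List (Fin m)} (hv : Vh h w v) : ch m k v ∈ (dat g h w).N := by
  cases v with
  | nil => simp [dat]
  | cons x v =>
    have h1 : (ch m k (x :: v), [tx m k x, ch m k v]) ∈ rules g h w :=
      mem_rules.2 (Or.inr (Or.inr ⟨x :: v, hv, rfl, Or.inl rfl⟩))
    have h2 := List.mem_map_of_mem (f := Prod.fst) h1
    simp only [dat, List.mem_cons]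
    exact Or.inr (Or.inr (Or.inr (Or.inr h2)))

theorem Vg.tail {x : Fin m} {v : List (Fin m)} (hv : Vg g (x :: v)) : Vg g v := by
  rcases hv with hv | ⟨i, hv⟩
  · simp at hv
  · exact Or.inr ⟨i, (List.suffix_cons x v).trans hv⟩

theorem Vh.tail {x : Fin m} {v : List (Fin m)} (hv : Vh h w (x :: v)) : Vh h w v := by
  rcases hv with hv | hv | ⟨i, hv⟩
  · simp at hv
  · exact Or.inr (Or.inl ((List.suffix_cons x v).trans hv))
  · exact Or.inr (Or.inr ⟨i, (List.suffix_cons x v).trans hv⟩)

theorem tx_mem (x : Fin m) : tx m k x ∈ tl m k := mem_tl.2 (Or.inl ⟨x, rfl⟩)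
theorem ta_mem (i : Fin k) : ta m k i ∈ tl m k := mem_tl.2 (Or.inr ⟨i, rfl⟩)

/-- the shape of the right-hand sides -/
theorem rl_shape {c : List (Fin m) → ℕ} {f : Fin k → List (Fin m)} {V : List (Fin m) → Prop}
    {N : List ℕ} (hN : ∀ v, V v → c v ∈ N) (hS : ∀ v, c v ≠ ss m k) (hD : dd m k ∈ N)
    (hVf : ∀ i, V (f i)) (hV : ∀ x v, V (x :: v) → V v) {v : List (Fin m)} (hv : V v)
    {β : List ℕ} (hb : Rl (tx m k) (ta m k) f c (dd m k) (· ∈ tl m k) v β) :
    β ≠ [] ∧ ((∀ x ∈ β, x ∈ tl m k) ∨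
    ∃ (u : List ℕ) (B : ℕ) (v : List ℕ), β = u ++ B :: v ∧ (∀ x ∈ u, x ∈ tl m k) ∧
      (∀ x ∈ v, x ∈ tl m k) ∧ B ∈ N ∧ B ≠ ss m k) := by
  cases v with
  | nil =>
    rcases hb with ⟨i, rfl | rfl⟩ | ⟨x, rfl | rfl⟩
    · exact ⟨by simp, Or.inr ⟨[], _, [ta m k i], rfl, by simp, by simpa using ta_mem i,
        hN _ (hVf i), hS _⟩⟩
    · exact ⟨by simp, Or.inl (by simpa using ta_mem i)⟩
    · exact ⟨by simp, Or.inr ⟨[], _, [tx m k x], rfl, by simp, by simpa using tx_mem x, hD,
        dd_ne_ss⟩⟩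
    · exact ⟨by simp, Or.inl (by simpa using tx_mem x)⟩
  | cons x v =>
    rcases hb with rfl | ⟨-, rfl⟩ | ⟨y, hy, -, rfl | rfl⟩
    · exact ⟨by simp, Or.inr ⟨[tx m k x], _, [], rfl, by simpa using tx_mem x, by simp,
        hN _ (hV _ _ hv), hS _⟩⟩
    · exact ⟨by simp, Or.inl (by simpa using tx_mem x)⟩
    · exact ⟨by simp, Or.inr ⟨[y], _, [], rfl, by simpa using hy, by simp, hD, dd_ne_ss⟩⟩
    · exact ⟨by simp, Or.inl (by simpa using hy)⟩

theorem dat_ok : (dat g h w).OK := by
  have hD : dd m k ∈ (dat g h w).N := by simp [dat]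
  have hD1 : ∀ x ∈ tl m k, (dd m k, [x]) ∈ rules g h w ∧ (dd m k, [x, dd m k]) ∈ rules g h w := by
    intro x hx
    exact ⟨mem_rules.2 (Or.inl ⟨rfl, x, hx, Or.inl rfl⟩),
      mem_rules.2 (Or.inl ⟨rfl, x, hx, Or.inr rfl⟩)⟩
  refine ⟨?_, by simp [dat], hD, dd_ne_ss, ?_, hD1, ?_, ?_⟩
  · intro x hx
    simp only [dat, List.mem_cons, List.mem_map] at hx
    rcases hx with rfl | rfl | rfl | rfl | ⟨r, hr, rfl⟩
    · exact cd_not_mem
    · exact cd_not_mem
    · exact cd_not_mem
    · exact cd_not_mem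
    · rcases mem_rules.1 hr with ⟨h1, -⟩ | ⟨v, -, h1, -⟩ | ⟨v, -, h1, -⟩
      · rw [h1]; exact cd_not_mem
      · rw [h1]; exact cd_not_mem
      · rw [h1]; exact cd_not_mem
  · intro r hr
    have hr1 : r.1 ∈ (dat g h w).N := by
      simp only [dat, List.mem_cons]
      exact Or.inr (Or.inr (Or.inr (Or.inr (List.mem_map_of_mem (f := Prod.fst) hr))))
    refine ⟨hr1, ?_⟩
    rcases mem_rules.1 hr with ⟨h1, y, hy, h2 | h2⟩ | ⟨v, hv, h1, h2⟩ | ⟨v, hv, h1, h2⟩
    · refine ⟨by rw [h1]; exact dd_ne_ss, by rw [h2]; simp, Or.inl ?_⟩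
      rw [h2]
      intro z hz
      simp only [List.mem_singleton] at hz
      subst hz
      exact hy
    · refine ⟨by rw [h1]; exact dd_ne_ss, by rw [h2]; simp, Or.inr ⟨[y], dd m k, [], by rw [h2]; rfl,
        ?_, by simp, hD, dd_ne_ss⟩⟩
      intro z hz
      simp only [List.mem_singleton] at hz
      subst hz
      exact hy
    · exact ⟨by rw [h1]; exact cg_ne_ss v, rl_shape (V := Vg g) (fun v hv => mem_N_cg hv) cg_ne_ss hD
        (fun i => Or.inr ⟨i, List.suffix_refl _⟩) (fun x v => Vg.tail) hv h2⟩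
    · exact ⟨by rw [h1]; exact ch_ne_ss v, rl_shape (V := Vh h w) (fun v hv => mem_N_ch hv) ch_ne_ss
        hD (fun i => Or.inr (Or.inr ⟨i, List.suffix_refl _⟩)) (fun x v => Vh.tail) hv h2⟩
  · intro β hβ
    rcases mem_rules.1 hβ with ⟨-, h1⟩ | ⟨v, -, h1, -⟩ | ⟨v, -, h1, -⟩
    · exact h1
    · exact absurd h1.symm (cg_ne_dd v)
    · exact absurd h1.symm (ch_ne_dd v)
  · intro B hB
    simp only [dat, List.mem_cons, List.not_mem_nil, or_false] at hB
    rcases hB with rfl | rfl
    · exact ⟨mem_N_cg (Or.inl rfl), cg_ne_ss _⟩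
    · exact ⟨mem_N_ch (Or.inr (Or.inl (List.suffix_refl _))), ch_ne_ss _⟩

theorem split_code : ∀ {a a' : List (Fin m)} {b b' : List (Fin k)},
    a.map (tx m k) ++ b.map (ta m k) = a'.map (tx m k) ++ b'.map (ta m k) → a = a' ∧ b = b' := by
  intro a
  induction a with
  | nil =>
    intro a' b b' h
    cases a' with
    | nil => exact ⟨rfl, List.map_injective_iff.2 ta_inj (by simpa using h)⟩
    | cons y a' =>
      cases b with
      | nil => simp at h
      | cons i b =>
        simp only [List.map_nil, List.nil_append, List.map_cons, List.cons_append,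
          List.cons.injEq] at h
        exact absurd h.1.symm (tx_ne_ta y i)
  | cons x a ih =>
    intro a' b b' h
    cases a' with
    | nil =>
      cases b' with
      | nil => simp at h
      | cons i b' =>
        simp only [List.map_nil, List.nil_append, List.map_cons, List.cons_append,
          List.cons.injEq] at h
        exact absurd h.1 (tx_ne_ta x i)
    | cons y a' =>
      simp only [List.map_cons, List.cons_append, List.cons.injEq] at h
      obtain ⟨h1, h2⟩ := ih h.2
      exact ⟨by rw [tx_inj h.1, h1], h2⟩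

theorem gn_cg (hg : ∀ i, g i ≠ []) {w0 : List ℕ} (h0 : w0 ≠ []) (hT : ∀ x ∈ w0, x ∈ tl m k) :
    Gn (rules g h w) (· ∈ tl m k) (cg m k []) w0 ↔ ¬ Sol (tx m k) (ta m k) g [] w0 := by
  have hok := dat_ok (g := g) (h := h) (w := w)
  refine gn_iff (c := cg m k) (D := dd m k) (R := rules g h w) (V := Vg g) tx_mem ta_mem (fun y hy => mem_tl.1 hy) ta_inj tx_ne_ta
    (fun v => cd_not_mem) cd_not_mem hg (Or.inl rfl) (fun i => Or.inr ⟨i, List.suffix_refl _⟩)
    (fun x v => Vg.tail) (fun r hr => (hok.r r hr).2.2.1)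
    (fun r hr => hok.nt _ (hok.r r hr).1) (fun w1 h1 h2 => hok.gn_D h1 h2) ?_ _ w0 [] rfl h0 hT
    (Or.inl rfl)
  intro v hv β
  rw [mem_rules]
  constructor
  · rintro (⟨h1, -⟩ | ⟨v', -, h1, h2⟩ | ⟨v', -, h1, -⟩)
    · exact absurd h1 (cg_ne_dd v)
    · obtain rfl := cg_inj h1
      exact h2
    · exact absurd h1 (cg_ne_ch v v')
  · intro h1
    exact Or.inr (Or.inl ⟨v, hv, rfl, h1⟩)

theorem gn_ch (hh : ∀ i, h i ≠ []) {w0 : List ℕ} (h0 : w0 ≠ []) (hT : ∀ x ∈ w0, x ∈ tl m k) :
    Gn (rules g h w) (· ∈ tl m k) (ch m k w) w0 ↔ ¬ Sol (tx m k) (ta m k) h w w0 := by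
  have hok := dat_ok (g := g) (h := h) (w := w)
  refine gn_iff (c := ch m k) (D := dd m k) (R := rules g h w) (V := Vh h w) tx_mem ta_mem (fun y hy => mem_tl.1 hy) ta_inj tx_ne_ta
    (fun v => cd_not_mem) cd_not_mem hh (Or.inl rfl)
    (fun i => Or.inr (Or.inr ⟨i, List.suffix_refl _⟩))
    (fun x v => Vh.tail) (fun r hr => (hok.r r hr).2.2.1)
    (fun r hr => hok.nt _ (hok.r r hr).1) (fun w1 h1 h2 => hok.gn_D h1 h2) ?_ _ w0 w rfl h0 hT
    (Or.inr (Or.inl (List.suffix_refl _)))
  intro v hv β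
  rw [mem_rules]
  constructor
  · rintro (⟨h1, -⟩ | ⟨v', -, h1, h2⟩ | ⟨v', -, h1, h2⟩)
    · exact absurd h1 (ch_ne_dd v)
    · exact absurd h1.symm (cg_ne_ch v' v)
    · obtain rfl := ch_inj h1
      exact h2
  · intro h1
    exact Or.inr (Or.inr ⟨v, hv, rfl, h1⟩)

/-- the reduction is correct -/
theorem red_iff (hg : ∀ i, g i ≠ []) (hh : ∀ i, h i ≠ []) :
    Fam (dat g h w).G1 = Fam (dat g h w).G2 ↔
      ¬ ∃ is : List (Fin k), is ≠ [] ∧ w ++ is.flatMap h = is.flatMap g := by
  rw [dat_ok.fam_iff]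
  constructor
  · rintro hu ⟨is, h0, h1⟩
    let w0 : List ℕ := (is.flatMap g).map (tx m k) ++ is.reverse.map (ta m k)
    have hw0 : w0 ≠ [] := by
      simp [w0, h0]
    have hT : ∀ x ∈ w0, x ∈ tl m k := by
      intro x hx
      simp only [w0, List.mem_append, List.mem_map] at hx
      rcases hx with ⟨y, -, rfl⟩ | ⟨y, -, rfl⟩
      · exact tx_mem y
      · exact ta_mem y
    obtain ⟨B, hB, hgn⟩ := hu w0 hw0 hT
    simp only [dat, List.mem_cons, List.not_mem_nil, or_false] at hB
    rcases hB with rfl | rfl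
    · exact (gn_cg hg hw0 hT).1 hgn ⟨is, by simp [w0]⟩
    · exact (gn_ch hh hw0 hT).1 hgn ⟨is, by rw [h1]⟩
  · intro hns w0 hw0 hT
    by_contra hcon
    have h1 : Sol (tx m k) (ta m k) g [] w0 := by
      by_contra h2
      exact hcon ⟨cg m k [], by simp [dat], (gn_cg hg hw0 hT).2 h2⟩
    have h2 : Sol (tx m k) (ta m k) h w w0 := by
      by_contra h2
      exact hcon ⟨ch m k w, by simp [dat], (gn_ch hh hw0 hT).2 h2⟩
    obtain ⟨is, h3⟩ := h1
    obtain ⟨js, h4⟩ := h2
    rw [h3] at h4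
    obtain ⟨h5, h6⟩ := split_code h4
    have h7 : is = js := List.reverse_injective h6
    subst h7
    refine hns ⟨is, ?_, by simpa using h5.symm⟩
    rintro rfl
    simp at h3
    exact hw0 h3

/-! ### the grammars are proper and linear -/

theorem Dat.OK.proper {d : Dat} (hd : d.OK) : Proper d.G1 ∧ Proper d.G2 := by
  have key : ∀ r ∈ prods d.G2, r.1 ∈ d.N ∧ r.2 ≠ [] ∧ ∀ x ∈ r.2, x ∈ d.N ∨ x ∈ d.T := by
    intro r hr
    refine ⟨(hd.lin r hr).1, ?_, ?_⟩
    · rcases mem_P2.1 hr with h1 | ⟨B, -, rfl⟩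
      · exact (hd.r r h1).2.2.1
      · simp
    · rcases (hd.lin r hr).2 with h1 | ⟨u, B, v, h1, h2, h3, h4⟩
      · exact fun x hx => Or.inr (h1 x hx)
      · intro x hx
        rw [h1] at hx
        simp only [List.mem_append, List.mem_cons] at hx
        rcases hx with hx | rfl | hx
        · exact Or.inr (h2 x hx)
        · exact Or.inl h4
        · exact Or.inr (h3 x hx)
  exact ⟨⟨hd.nt, hd.s, fun r hr => key r (P1_sub hr)⟩, hd.nt, hd.s, key⟩

theorem Dat.OK.linear {d : Dat} (hd : d.OK) : Linear d.G2 := by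
  intro r hr
  have hf : ∀ l : List ℕ, (∀ x ∈ l, x ∈ d.T) → l.filter (fun x => decide (x ∈ nts d.G2)) = [] := by
    intro l hl
    rw [List.filter_eq_nil_iff]
    intro x hx h1
    exact hd.nt x (by simpa [nts, Dat.G2] using h1) (hl x hx)
  rcases (hd.lin r hr).2 with h1 | ⟨u, B, v, h1, h2, h3, h4⟩
  · rw [hf _ h1]
    simp
  · rw [h1, List.filter_append, List.filter_cons, hf u h2, hf v h3]
    split_ifs <;> simp

/-! ### computability -/

theorem prim_cd : Primrec (cd (m := m) (k := k)) := Primrec.encode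

theorem prim_ch : Primrec (ch m k) :=
  prim_cd.comp (Primrec.sumInr.comp (Primrec.sumInl.comp Primrec.sumInr))

theorem prim_tx : Primrec (tx m k) :=
  prim_cd.comp (Primrec.sumInl.comp Primrec.sumInl)

theorem prim_blk {c : List (Fin m) → ℕ} (hc : Primrec c) :
    Primrec fun p : Fin m × List (Fin m) => blk k c p.1 p.2 := by
  unfold blk
  have h1 : Primrec fun p : Fin m × List (Fin m) => c (p.1 :: p.2) :=
    hc.comp (Primrec.list_cons.comp Primrec.fst Primrec.snd)
  have h2 : Primrec fun p : Fin m × List (Fin m) => c p.2 := hc.comp Primrec.snd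
  have h3 : Primrec fun p : Fin m × List (Fin m) => tx m k p.1 := prim_tx.comp Primrec.fst
  have sing : ∀ {α : Type} [Primcodable α] {f : α → ℕ}, Primrec f → Primrec fun a => [f a] :=
    fun hf => Primrec.list_cons.comp hf (Primrec.const [])
  have two : ∀ {α : Type} [Primcodable α] {f f' : α → ℕ}, Primrec f → Primrec f' →
      Primrec fun a => [f a, f' a] :=
    fun hf hf' => Primrec.list_cons.comp hf (Primrec.list_cons.comp hf' (Primrec.const []))
  have h4 : Primrec fun p : Fin m × List (Fin m) => (c (p.1 :: p.2), [tx m k p.1, c p.2]) :=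
    Primrec.pair h1 (two h3 h2)
  refine Primrec.list_cons.comp h4 (Primrec.list_append.comp ?_ ?_)
  · refine Primrec.ite (Primrec.eq.comp Primrec.snd (Primrec.const [])) (Primrec.const []) ?_
    exact Primrec.list_cons.comp (Primrec.pair h1 (sing h3)) (Primrec.const [])
  · refine Primrec.list_flatMap (Primrec.const _) ?_
    have a1 := h1.comp (Primrec.fst (α := Fin m × List (Fin m)) (β := ℕ))
    have a3 := h3.comp (Primrec.fst (α := Fin m × List (Fin m)) (β := ℕ))
    have a2 := Primrec.snd (α := Fin m × List (Fin m)) (β := ℕ)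
    refine (Primrec.ite (Primrec.eq.comp a2 a3) (Primrec.const [])
      (Primrec.list_cons.comp (Primrec.pair a1 (two a2 (Primrec.const (dd m k))))
        (Primrec.list_cons.comp (Primrec.pair a1 (sing a2)) (Primrec.const []))))

theorem prim_chn {c : List (Fin m) → ℕ} (hc : Primrec c) : Primrec (chn k c) := by
  have h1 : Primrec fun w : List (Fin m) => (List.recOn w ([] : List (ℕ × List ℕ))
      (fun x v ih => blk k c x v ++ ih) : List (ℕ × List ℕ)) := by
    refine Primrec.list_rec (f := fun w : List (Fin m) => w) (g := fun _ => [])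
      (h := fun _ p => blk k c p.1 p.2.1 ++ p.2.2) Primrec.id (Primrec.const []) ?_
    refine Primrec.list_append.comp ?_ ?_
    · exact (prim_blk hc).comp (Primrec.pair (Primrec.fst.comp Primrec.snd)
        (Primrec.fst.comp (Primrec.snd.comp Primrec.snd)))
    · exact Primrec.snd.comp (Primrec.snd.comp Primrec.snd)
  refine h1.of_eq fun w => ?_
  induction w with
  | nil => rfl
  | cons x w ih =>
    simp only [chn]
    rw [← ih]

theorem prim_rules : Primrec (rules g h) := by
  unfold rules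
  exact Primrec.list_append.comp (Primrec.const _) (prim_chn prim_ch)

theorem prim_N : Primrec fun w : List (Fin m) => (dat g h w).N := by
  unfold dat
  refine Primrec.list_cons.comp (Primrec.const _) (Primrec.list_cons.comp (Primrec.const _)
    (Primrec.list_cons.comp (Primrec.const _) (Primrec.list_cons.comp (Primrec.const _) ?_)))
  exact Primrec.list_map prim_rules (Primrec.fst.comp Primrec.snd)

theorem prim_G1 : Primrec fun w : List (Fin m) => (dat g h w).G1 := by
  unfold Dat.G1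
  refine Primrec.pair prim_N (Primrec.pair (Primrec.const (tl m k)) (Primrec.pair
    (Primrec.list_append.comp prim_rules ?_) (Primrec.const (ss m k))))
  have h1 : Primrec fun w : List (Fin m) =>
      [(ss m k, cg m k [] :: tl m k), (ss m k, ch m k w :: tl m k)] :=
    Primrec.list_cons.comp (Primrec.const _) (Primrec.list_cons.comp
      (Primrec.pair (Primrec.const _) (Primrec.list_cons.comp prim_ch (Primrec.const _)))
      (Primrec.const []))
  exact h1.of_eq fun w => by simp [dat]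

theorem prim_G2 : Primrec fun w : List (Fin m) => (dat g h w).G2 := by
  unfold Dat.G2
  refine Primrec.pair prim_N (Primrec.pair (Primrec.const (tl m k)) (Primrec.pair
    (Primrec.list_append.comp prim_rules ?_) (Primrec.const (ss m k))))
  have h1 : Primrec fun w : List (Fin m) =>
      [(ss m k, dd m k :: tl m k), (ss m k, cg m k [] :: tl m k), (ss m k, ch m k w :: tl m k)] :=
    Primrec.list_cons.comp (Primrec.const _) (Primrec.list_cons.comp (Primrec.const _)
      (Primrec.list_cons.comp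
        (Primrec.pair (Primrec.const _) (Primrec.list_cons.comp prim_ch (Primrec.const _)))
        (Primrec.const [])))
  exact h1.of_eq fun w => by simp [dat]

end

end Pool.Agent.X247.Gf
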