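import Pool.Agent.X247.Gf.Sys
import Pool.Agent.X238.Mcs.Pcpi

set_option autoImplicit false

/-!
# Family equivalence of grammar forms is undecidable
-/

namespace Pool.Agent.X247.Gf

/-- the source of undecidability, with finite alphabets `Fin m`, `Fin k` -/
theorem exists_fin : ∃ (m k : ℕ) (g h : Fin k → List (Fin m)),
    (∀ i, g i ≠ []) ∧ (∀ i, h i ≠ []) ∧ ∃ a b c : List (Fin m), a ≠ [] ∧
      ∀ W : ℕ → Prop, REPred W → ∃ F : ℕ → ℕ, Computable F ∧ ∀ n,
        (∃ is : List (Fin k), is ≠ [] ∧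
          (a ++ (List.range (F n)).flatMap (fun _ => b) ++ c) ++ is.flatMap h = is.flatMap g) ↔
        W n := by
  obtain ⟨X, A, hX, hA, g, h, hg, hh, a, b, c, ha, H⟩ := Pool.Agent.X238.Mcs.exists_pairs
  obtain ⟨m, ⟨eX⟩⟩ := Finite.exists_equiv_fin X
  obtain ⟨k, ⟨eA⟩⟩ := Finite.exists_equiv_fin A
  refine ⟨m, k, fun i => (g (eA.symm i)).map eX, fun i => (h (eA.symm i)).map eX, ?_, ?_,
    a.map eX, b.map eX, c.map eX, by simpa using ha, ?_⟩
  · intro i; simpa using hg _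
  · intro i; simpa using hh _
  intro W hW
  obtain ⟨F, hF, hW'⟩ := H W hW
  refine ⟨F, hF, fun n => ?_⟩
  rw [← hW' n]
  have hmap : ∀ (f : A → List X) (is : List (Fin k)),
      is.flatMap (fun i => (f (eA.symm i)).map eX) = ((is.map eA.symm).flatMap f).map eX := by
    intro f is
    rw [List.map_flatMap, List.flatMap_map]
  have hb : (List.range (F n)).flatMap (fun _ => b.map eX) =
      ((List.range (F n)).flatMap (fun _ => b)).map eX := by
    rw [List.map_flatMap]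
  constructor
  · rintro ⟨is, h0, h1⟩
    refine ⟨is.map eA.symm, by simpa using h0, ?_⟩
    rw [hmap, hmap, hb, ← List.map_append, ← List.map_append, ← List.map_append] at h1
    exact List.map_injective_iff.2 eX.injective h1
  · rintro ⟨is, h0, h1⟩
    refine ⟨is.map eA, by simpa using h0, ?_⟩
    rw [hmap, hmap, hb, ← List.map_append, ← List.map_append, ← List.map_append]
    have h2 : (is.map eA).map eA.symm = is := by simp
    rw [h2, h1]

section

variable {m k : ℕ}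

/-- names of the letters -/
abbrev Nm (m k : ℕ) : Type :=
  (Fin m ⊕ Fin k) ⊕ ((List (Fin m) ⊕ List (Fin m)) ⊕ Bool)

def cd (x : Nm m k) : ℕ := Encodable.encode x

def tx (m k : ℕ) (x : Fin m) : ℕ := cd (m := m) (k := k) (.inl (.inl x))
def ta (m k : ℕ) (i : Fin k) : ℕ := cd (m := m) (k := k) (.inl (.inr i))
def cg (m k : ℕ) (v : List (Fin m)) : ℕ := cd (m := m) (k := k) (.inr (.inl (.inl v)))
def ch (m k : ℕ) (v : List (Fin m)) : ℕ := cd (m := m) (k := k) (.inr (.inl (.inr v)))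
def dd (m k : ℕ) : ℕ := cd (m := m) (k := k) (.inr (.inr true))
def ss (m k : ℕ) : ℕ := cd (m := m) (k := k) (.inr (.inr false))

theorem cd_inj : Function.Injective (cd (m := m) (k := k)) := Encodable.encode_injective

/-- the terminals -/
def tl (m k : ℕ) : List ℕ := (List.finRange m).map (tx m k) ++ (List.finRange k).map (ta m k)

/-- the productions of the universal nonterminal -/
def rD (m k : ℕ) : List (ℕ × List ℕ) :=
  (tl m k).flatMap fun y => [(dd m k, [y]), (dd m k, [y, dd m k])]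

/-- the productions for the empty remaining word -/
def base (c : List (Fin m) → ℕ) (f : Fin k → List (Fin m)) : List (ℕ × List ℕ) :=
  (List.finRange k).flatMap (fun i => [(c [], [c (f i), ta m k i]), (c [], [ta m k i])]) ++
  (List.finRange m).flatMap (fun x => [(c [], [dd m k, tx m k x]), (c [], [tx m k x])])

/-- the productions for the remaining word `x :: v` -/
def blk (k : ℕ) (c : List (Fin m) → ℕ) (x : Fin m) (v : List (Fin m)) : List (ℕ × List ℕ) :=
  (c (x :: v), [tx m k x, c v]) :: ((if v = [] then [] else [(c (x :: v), [tx m k x])]) ++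
    (tl m k).flatMap fun y => if y = tx m k x then [] else
      [(c (x :: v), [y, dd m k]), (c (x :: v), [y])])

/-- the productions for all nonempty suffixes -/
def chn (k : ℕ) (c : List (Fin m) → ℕ) : List (Fin m) → List (ℕ × List ℕ)
  | [] => []
  | x :: v => blk k c x v ++ chn k c v

/-- all productions -/
def rules (g h : Fin k → List (Fin m)) (w : List (Fin m)) : List (ℕ × List ℕ) :=
  rD m k ++ base (cg m k) g ++ (List.finRange k).flatMap (fun i => chn k (cg m k) (g i)) ++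
  base (ch m k) h ++ (List.finRange k).flatMap (fun i => chn k (ch m k) (h i)) ++
  chn k (ch m k) w

/-- the data -/
def dat (g h : Fin k → List (Fin m)) (w : List (Fin m)) : Dat where
  N := ss m k :: dd m k :: cg m k [] :: ch m k [] :: (rules g h w).map Prod.fst
  T := tl m k
  S := ss m k
  D := dd m k
  R := rules g h w
  B0 := [cg m k [], ch m k w]

theorem mem_tl {y : ℕ} : y ∈ tl m k ↔ (∃ x, y = tx m k x) ∨ ∃ i, y = ta m k i := by
  simp [tl, eq_comm]

theorem mem_base {c : List (Fin m) → ℕ} {f : Fin k → List (Fin m)} {r : ℕ × List ℕ} :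
    r ∈ base c f ↔ r.1 = c [] ∧ Rl (tx m k) (ta m k) f c (dd m k) (· ∈ tl m k) [] r.2 := by
  obtain ⟨A, β⟩ := r
  simp only [base, Rl, List.mem_append, List.mem_flatMap, List.mem_finRange, true_and,
    List.mem_cons, List.not_mem_nil, or_false, Prod.mk.injEq]
  constructor
  · rintro (⟨i, ⟨h1, h2⟩ | ⟨h1, h2⟩⟩ | ⟨x, ⟨h1, h2⟩ | ⟨h1, h2⟩⟩)
    · exact ⟨h1, Or.inl ⟨i, Or.inl h2⟩⟩
    · exact ⟨h1, Or.inl ⟨i, Or.inr h2⟩⟩
    · exact ⟨h1, Or.inr ⟨x, Or.inl h2⟩⟩
    · exact ⟨h1, Or.inr ⟨x, Or.inr h2⟩⟩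
  · rintro ⟨h1, ⟨i, h2 | h2⟩ | ⟨x, h2 | h2⟩⟩
    · exact Or.inl ⟨i, Or.inl ⟨h1, h2⟩⟩
    · exact Or.inl ⟨i, Or.inr ⟨h1, h2⟩⟩
    · exact Or.inr ⟨x, Or.inl ⟨h1, h2⟩⟩
    · exact Or.inr ⟨x, Or.inr ⟨h1, h2⟩⟩

theorem mem_blk {c : List (Fin m) → ℕ} {f : Fin k → List (Fin m)} {x : Fin m} {v : List (Fin m)}
    {r : ℕ × List ℕ} : r ∈ blk k c x v ↔
      r.1 = c (x :: v) ∧ Rl (tx m k) (ta m k) f c (dd m k) (· ∈ tl m k) (x :: v) r.2 := by
  obtain ⟨A, β⟩ := r
  simp only [blk, Rl, List.mem_append, List.mem_flatMap, List.mem_cons, Prod.mk.injEq]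
  constructor
  · rintro (⟨h1, h2⟩ | h1 | ⟨y, h1, h2⟩)
    · exact ⟨h1, Or.inl h2⟩
    · split_ifs at h1 with h3
      · simp at h1
      · simp only [List.mem_singleton, Prod.mk.injEq] at h1
        exact ⟨h1.1, Or.inr (Or.inl ⟨h3, h1.2⟩)⟩
    · split_ifs at h2 with h3
      · simp at h2
      · simp only [List.mem_cons, Prod.mk.injEq, List.not_mem_nil, or_false] at h2
        rcases h2 with ⟨h4, h5⟩ | ⟨h4, h5⟩
        · exact ⟨h4, Or.inr (Or.inr ⟨y, h1, h3, Or.inl h5⟩)⟩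
        · exact ⟨h4, Or.inr (Or.inr ⟨y, h1, h3, Or.inr h5⟩)⟩
  · rintro ⟨h1, h2 | ⟨h2, h3⟩ | ⟨y, h2, h3, h4⟩⟩
    · exact Or.inl ⟨h1, h2⟩
    · exact Or.inr (Or.inl (by rw [if_neg h2]; simp [h1, h3]))
    · refine Or.inr (Or.inr ⟨y, h2, ?_⟩)
      rw [if_neg h3]
      simp only [List.mem_cons, Prod.mk.injEq, List.not_mem_nil, or_false]
      rcases h4 with h4 | h4
      · exact Or.inl ⟨h1, h4⟩
      · exact Or.inr ⟨h1, h4⟩

theorem mem_chn {c : List (Fin m) → ℕ} {f : Fin k → List (Fin m)} {r : ℕ × List ℕ} :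
    ∀ {w : List (Fin m)}, r ∈ chn k c w ↔ ∃ x v, (x :: v) <:+ w ∧ r.1 = c (x :: v) ∧
      Rl (tx m k) (ta m k) f c (dd m k) (· ∈ tl m k) (x :: v) r.2 := by
  intro w
  induction w with
  | nil => simp [chn]
  | cons y w ih =>
    rw [chn, List.mem_append, mem_blk (f := f), ih]
    constructor
    · rintro (⟨h1, h2⟩ | ⟨x, v, h1, h2, h3⟩)
      · exact ⟨y, w, List.suffix_refl _, h1, h2⟩
      · exact ⟨x, v, h1.trans (List.suffix_cons _ _), h2, h3⟩
    · rintro ⟨x, v, h1, h2, h3⟩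
      rcases List.suffix_cons_iff.1 h1 with h4 | h4
      · simp only [List.cons.injEq] at h4
        obtain ⟨rfl, rfl⟩ := h4
        exact Or.inl ⟨h2, h3⟩
      · exact Or.inr ⟨x, v, h4, h2, h3⟩

theorem mem_rD {r : ℕ × List ℕ} : r ∈ rD m k ↔
    r.1 = dd m k ∧ ∃ y ∈ tl m k, r.2 = [y] ∨ r.2 = [y, dd m k] := by
  obtain ⟨A, β⟩ := r
  simp only [rD, List.mem_flatMap, List.mem_cons, Prod.mk.injEq, List.not_mem_nil, or_false]
  constructor
  · rintro ⟨y, hy, ⟨h1, h2⟩ | ⟨h1, h2⟩⟩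
    · exact ⟨h1, y, hy, Or.inl h2⟩
    · exact ⟨h1, y, hy, Or.inr h2⟩
  · rintro ⟨h1, y, hy, h2 | h2⟩
    · exact ⟨y, hy, Or.inl ⟨h1, h2⟩⟩
    · exact ⟨y, hy, Or.inr ⟨h1, h2⟩⟩

/-- remaining words for `g` -/
def Vg (g : Fin k → List (Fin m)) (v : List (Fin m)) : Prop := v = [] ∨ ∃ i, v <:+ g i

/-- remaining words for `h` -/
def Vh (h : Fin k → List (Fin m)) (w v : List (Fin m)) : Prop := v = [] ∨ v <:+ w ∨ ∃ i, v <:+ h i

theorem mem_rules {g h : Fin k → List (Fin m)} {w : List (Fin m)} {r : ℕ × List ℕ} :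
    r ∈ rules g h w ↔
      (r.1 = dd m k ∧ ∃ y ∈ tl m k, r.2 = [y] ∨ r.2 = [y, dd m k]) ∨
      (∃ v, Vg g v ∧ r.1 = cg m k v ∧
        Rl (tx m k) (ta m k) g (cg m k) (dd m k) (· ∈ tl m k) v r.2) ∨
      (∃ v, Vh h w v ∧ r.1 = ch m k v ∧
        Rl (tx m k) (ta m k) h (ch m k) (dd m k) (· ∈ tl m k) v r.2) := by
  simp only [rules, List.mem_append, List.mem_flatMap, List.mem_finRange, true_and, mem_rD,
    mem_base, mem_chn (f := g) (c := cg m k), mem_chn (f := h) (c := ch m k)]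
  constructor
  · rintro (((((h1 | ⟨h1, h2⟩) | ⟨i, x, v, h1, h2, h3⟩) | ⟨h1, h2⟩) | ⟨i, x, v, h1, h2, h3⟩) |
      ⟨x, v, h1, h2, h3⟩)
    · exact Or.inl h1
    · exact Or.inr (Or.inl ⟨[], Or.inl rfl, h1, h2⟩)
    · exact Or.inr (Or.inl ⟨_, Or.inr ⟨i, h1⟩, h2, h3⟩)
    · exact Or.inr (Or.inr ⟨[], Or.inl rfl, h1, h2⟩)
    · exact Or.inr (Or.inr ⟨_, Or.inr (Or.inr ⟨i, h1⟩), h2, h3⟩)
    · exact Or.inr (Or.inr ⟨_, Or.inr (Or.inl h1), h2, h3⟩)
  · rintro (h1 | ⟨v, h1, h2, h3⟩ | ⟨v, h1, h2, h3⟩)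
    · exact Or.inl (Or.inl (Or.inl (Or.inl (Or.inl h1))))
    · cases v with
      | nil => exact Or.inl (Or.inl (Or.inl (Or.inl (Or.inr ⟨h2, h3⟩))))
      | cons x v =>
        rcases h1 with h1 | ⟨i, h1⟩
        · simp at h1
        · exact Or.inl (Or.inl (Or.inl (Or.inr ⟨i, x, v, h1, h2, h3⟩)))
    · cases v with
      | nil => exact Or.inl (Or.inl (Or.inr ⟨h2, h3⟩))
      | cons x v =>
        rcases h1 with h1 | h1 | ⟨i, h1⟩
        · simp at h1
        · exact Or.inr ⟨x, v, h1, h2, h3⟩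
        · exact Or.inl (Or.inr ⟨i, x, v, h1, h2, h3⟩)

/-! #### distinct letters -/

theorem tx_inj : Function.Injective (tx m k) := by
  intro x y h
  have := cd_inj h
  simpa using this

theorem ta_inj : Function.Injective (ta m k) := by
  intro x y h
  have := cd_inj h
  simpa using this

theorem cg_inj : Function.Injective (cg m k) := by
  intro x y h
  have := cd_inj h
  simpa using this

theorem ch_inj : Function.Injective (ch m k) := by
  intro x y h
  have := cd_inj h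
  simpa using this

theorem tx_ne_ta (x : Fin m) (i : Fin k) : tx m k x ≠ ta m k i := by
  intro h
  have := cd_inj h
  simp at this

theorem cd_not_mem {q : (List (Fin m) ⊕ List (Fin m)) ⊕ Bool} :
    cd (m := m) (k := k) (.inr q) ∉ tl m k := by
  intro h
  rcases mem_tl.1 h with ⟨x, h⟩ | ⟨i, h⟩
  · have := cd_inj h
    simp at this
  · have := cd_inj h
    simp at this

theorem cg_ne_ch (v w : List (Fin m)) : cg m k v ≠ ch m k w := by
  intro h
  have := cd_inj h
  simp at this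

theorem cg_ne_dd (v : List (Fin m)) : cg m k v ≠ dd m k := by
  intro h
  have := cd_inj h
  simp at this

theorem ch_ne_dd (v : List (Fin m)) : ch m k v ≠ dd m k := by
  intro h
  have := cd_inj h
  simp at this

theorem cg_ne_ss (v : List (Fin m)) : cg m k v ≠ ss m k := by
  intro h
  have := cd_inj h
  simp at this

theorem ch_ne_ss (v : List (Fin m)) : ch m k v ≠ ss m k := by
  intro h
  have := cd_inj h
  simp at this

theorem dd_ne_ss : dd m k ≠ ss m k := by
  intro h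
  have := cd_inj h
  simp at this

end

end Pool.Agent.X247.Gf
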