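import Pool.Agent.X247.Gf.Defs

set_option autoImplicit false

/-!
# Family equivalence and universality

Two linear grammars that are family equivalent if and only if a given linear grammar generates all
nonempty words.
-/

namespace Pool.Agent.X247.Gf

/-- data of the reduction: nonterminals, terminals, start symbol, the universal nonterminal, the
productions and the list of the initial nonterminals -/
structure Dat where
  N : List ℕ
  T : List ℕ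
  S : ℕ
  D : ℕ
  R : List (ℕ × List ℕ)
  B0 : List ℕ

/-- the smaller grammar -/
def Dat.G1 (d : Dat) : Gram := (d.N, d.T, d.R ++ d.B0.map (fun B => (d.S, B :: d.T)), d.S)

/-- the bigger grammar -/
def Dat.G2 (d : Dat) : Gram :=
  (d.N, d.T, d.R ++ (d.D :: d.B0).map (fun B => (d.S, B :: d.T)), d.S)

structure Dat.OK (d : Dat) : Prop where
  nt : ∀ x ∈ d.N, x ∉ d.T
  s : d.S ∈ d.N
  dn : d.D ∈ d.N
  ds : d.D ≠ d.S
  r : ∀ r ∈ d.R, r.1 ∈ d.N ∧ r.1 ≠ d.S ∧ r.2 ≠ [] ∧ ((∀ x ∈ r.2, x ∈ d.T) ∨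
    ∃ (u : List ℕ) (B : ℕ) (v : List ℕ), r.2 = u ++ B :: v ∧ (∀ x ∈ u, x ∈ d.T) ∧
      (∀ x ∈ v, x ∈ d.T) ∧ B ∈ d.N ∧ B ≠ d.S)
  d1 : ∀ x ∈ d.T, (d.D, [x]) ∈ d.R ∧ (d.D, [x, d.D]) ∈ d.R
  d2 : ∀ β, (d.D, β) ∈ d.R → ∃ x ∈ d.T, β = [x] ∨ β = [x, d.D]
  b0 : ∀ B ∈ d.B0, B ∈ d.N ∧ B ≠ d.S

/-- abbreviation: the letter predicate -/
abbrev Dat.TT (d : Dat) : ℕ → Prop := fun x => x ∈ d.T

variable {d : Dat}

theorem Dat.OK.rhs (h : d.OK) {r : ℕ × List ℕ} (hr : r ∈ d.R) {x : ℕ} (hx : x ∈ r.2) :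
    (x ∈ d.N ∧ x ≠ d.S) ∨ x ∈ d.T := by
  rcases (h.r r hr).2.2.2 with h1 | ⟨u, B, v, h1, h2, h3, h4, h5⟩
  · exact Or.inr (h1 x hx)
  · rw [h1] at hx
    simp only [List.mem_append, List.mem_cons] at hx
    rcases hx with hx | rfl | hx
    · exact Or.inr (h2 x hx)
    · exact Or.inl ⟨h4, h5⟩
    · exact Or.inr (h3 x hx)

theorem mem_P1 {r : ℕ × List ℕ} : r ∈ prods d.G1 ↔ r ∈ d.R ∨ ∃ B ∈ d.B0, r = (d.S, B :: d.T) := by
  simp [prods, Dat.G1, eq_comm]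

theorem mem_P2 {r : ℕ × List ℕ} : r ∈ prods d.G2 ↔
    r ∈ d.R ∨ ∃ B, (B = d.D ∨ B ∈ d.B0) ∧ r = (d.S, B :: d.T) := by
  simp [prods, Dat.G2, eq_comm]

theorem P1_sub {r : ℕ × List ℕ} (h : r ∈ prods d.G1) : r ∈ prods d.G2 := by
  rw [mem_P1] at h
  rw [mem_P2]
  rcases h with h | ⟨B, h, rfl⟩
  · exact Or.inl h
  · exact Or.inr ⟨B, Or.inr h, rfl⟩

theorem Dat.OK.lin (h : d.OK) (r : ℕ × List ℕ) (hr : r ∈ prods d.G2) :
    r.1 ∈ d.N ∧ ((∀ x ∈ r.2, x ∈ d.T) ∨ ∃ (u : List ℕ) (B : ℕ) (v : List ℕ),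
      r.2 = u ++ B :: v ∧ (∀ x ∈ u, x ∈ d.T) ∧ (∀ x ∈ v, x ∈ d.T) ∧ B ∈ d.N) := by
  rcases mem_P2.1 hr with hr | ⟨B, hB, rfl⟩
  · obtain ⟨h1, -, -, h2⟩ := h.r r hr
    refine ⟨h1, h2.imp_right ?_⟩
    rintro ⟨u, B, v, h3, h4, h5, h6, -⟩
    exact ⟨u, B, v, h3, h4, h5, h6⟩
  · refine ⟨h.s, Or.inr ⟨[], B, d.T, rfl, by simp, fun x hx => hx, ?_⟩⟩
    rcases hB with rfl | hB
    · exact h.dn
    · exact (h.b0 B hB).1

theorem Dat.OK.lin2 (h : d.OK) : LinP (prods d.G2) (fun x => x ∈ d.N) (fun x => x ∈ d.T) :=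
  h.lin

theorem Dat.OK.lin1 (h : d.OK) : LinP (prods d.G1) (fun x => x ∈ d.N) (fun x => x ∈ d.T) :=
  fun r hr => h.lin r (P1_sub hr)

/-! ### interpretations -/

/-- `σ` is disjoint on the letters of `N` and `T` -/
def Disj (d : Dat) (σ : ℕ → Finset ℕ) : Prop :=
  ∀ x y : ℕ, x ∈ d.N ∨ x ∈ d.T → y ∈ d.N ∨ y ∈ d.T → x ≠ y → Disjoint (σ x) (σ y)

theorem Disj.eq {σ : ℕ → Finset ℕ} (h : Disj d σ) {x y z : ℕ} (hx : x ∈ d.N ∨ x ∈ d.T)
    (hy : y ∈ d.N ∨ y ∈ d.T) (h1 : z ∈ σ x) (h2 : z ∈ σ y) : x = y := by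
  by_contra hne
  exact Finset.disjoint_left.1 (h x y hx hy hne) h1 h2

/-- images of words -/
abbrev Im (σ : ℕ → Finset ℕ) (w' w : List ℕ) : Prop := List.Forall₂ (fun z x => z ∈ σ x) w' w

theorem Im.append {σ : ℕ → Finset ℕ} {a b c e : List ℕ} (h1 : Im σ a b) (h2 : Im σ c e) :
    Im σ (a ++ c) (b ++ e) := List.rel_append h1 h2

theorem Im.split_right {σ : ℕ → Finset ℕ} : ∀ {b e w : List ℕ}, Im σ w (b ++ e) →
    ∃ a c, w = a ++ c ∧ Im σ a b ∧ Im σ c e := by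
  intro b
  induction b with
  | nil => intro e w h; exact ⟨[], w, rfl, .nil, h⟩
  | cons x b ih =>
    intro e w h
    cases h with
    | cons h1 h2 =>
      obtain ⟨a, c, rfl, h3, h4⟩ := ih h2
      exact ⟨_ :: a, c, rfl, .cons h1 h3, h4⟩

theorem Im.split_left {σ : ℕ → Finset ℕ} : ∀ {a c w : List ℕ}, Im σ (a ++ c) w →
    ∃ b e, w = b ++ e ∧ Im σ a b ∧ Im σ c e := by
  intro a
  induction a with
  | nil => intro c w h; exact ⟨[], w, rfl, .nil, h⟩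
  | cons x b ih =>
    intro c w h
    cases h with
    | cons h1 h2 =>
      obtain ⟨b', e, rfl, h3, h4⟩ := ih h2
      exact ⟨_ :: b', e, rfl, .cons h1 h3, h4⟩

theorem Im.mem_left {σ : ℕ → Finset ℕ} {w' w : List ℕ} (h : Im σ w' w) {z : ℕ} (hz : z ∈ w') :
    ∃ x ∈ w, z ∈ σ x := by
  induction h with
  | nil => simp at hz
  | cons h1 _ ih =>
    rcases List.mem_cons.1 hz with rfl | hz
    · exact ⟨_, by simp, h1⟩
    · obtain ⟨x, h2, h3⟩ := ih hz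
      exact ⟨x, by simp [h2], h3⟩

theorem Im.mem_right {σ : ℕ → Finset ℕ} {w' w : List ℕ} (h : Im σ w' w) {x : ℕ} (hx : x ∈ w) :
    ∃ z ∈ w', z ∈ σ x := by
  induction h with
  | nil => simp at hx
  | cons h1 _ ih =>
    rcases List.mem_cons.1 hx with rfl | hx
    · exact ⟨_, by simp, h1⟩
    · obtain ⟨z, h2, h3⟩ := ih hx
      exact ⟨z, by simp [h2], h3⟩

/-- the hypotheses on an interpretation, in terms of the productions `P'` and the terminals `T'` -/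
structure Itp (d : Dat) (σ : ℕ → Finset ℕ) (P : List (ℕ × List ℕ)) (P' : List (ℕ × List ℕ))
    (T' : ℕ → Prop) : Prop where
  dj : Disj d σ
  tm : ∀ z, T' z ↔ ∃ x ∈ d.T, z ∈ σ x
  sub : ∀ r ∈ P, r ∈ prods d.G2
  pr : ∀ r' ∈ P', ∃ r ∈ P, r'.1 ∈ σ r.1 ∧ Im σ r'.2 r.2

variable {σ : ℕ → Finset ℕ} {P P' : List (ℕ × List ℕ)} {T' : ℕ → Prop}

theorem Itp.ker (h : d.OK) (i : Itp d σ P P' T') {r : ℕ × List ℕ} (hr : r ∈ P) {x : ℕ}
    (hx : x ∈ r.2) : x ∈ d.N ∨ x ∈ d.T := by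
  rcases (h.lin r (i.sub r hr)).2 with h1 | ⟨u, B, v, h1, h2, h3, h4⟩
  · exact Or.inr (h1 x hx)
  · rw [h1] at hx
    simp only [List.mem_append, List.mem_cons] at hx
    rcases hx with hx | rfl | hx
    · exact Or.inr (h2 x hx)
    · exact Or.inl h4
    · exact Or.inr (h3 x hx)

theorem Itp.tT (h : d.OK) (i : Itp d σ P P' T') {x z : ℕ} (hx : x ∈ d.N ∨ x ∈ d.T) (hz : z ∈ σ x)
    (ht : T' z) : x ∈ d.T := by
  obtain ⟨y, hy, hzy⟩ := (i.tm z).1 ht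
  rwa [i.dj.eq hx (Or.inr hy) hz hzy]

theorem Itp.lhs_not (h : d.OK) (i : Itp d σ P P' T') {r' : ℕ × List ℕ} (hr : r' ∈ P') :
    ¬ T' r'.1 := by
  obtain ⟨r, h1, h2, -⟩ := i.pr r' hr
  have h3 := (h.lin r (i.sub r h1)).1
  intro ht
  exact h.nt _ h3 (i.tT h (Or.inl h3) h2 ht)

theorem Gn.lhs {P : List (ℕ × List ℕ)} {T : ℕ → Prop} {A : ℕ} {w : List ℕ} (h : Gn P T A w) :
    ∃ β, (A, β) ∈ P := by
  cases h with
  | t h _ => exact ⟨_, h⟩
  | s h _ _ _ => exact ⟨_, h⟩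

theorem Itp.gn_not (h : d.OK) (i : Itp d σ P P' T') {A : ℕ} {w : List ℕ} (hg : Gn P' T' A w) :
    ¬ T' A := by
  obtain ⟨β, hβ⟩ := hg.lhs
  exact i.lhs_not h hβ

/-- words of an interpretation are images of words of the grammar -/
theorem Itp.down (h : d.OK) (i : Itp d σ P P' T') {A' : ℕ} {w' : List ℕ}
    (hg : Gn P' T' A' w') : ∀ A, A ∈ d.N ∨ A ∈ d.T → A' ∈ σ A →
      ∃ w, Gn P (fun x => x ∈ d.T) A w ∧ Im σ w' w := by
  induction hg with
  | @t A' β' h1 h2 =>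
    intro A hA hA'
    obtain ⟨⟨A1, β⟩, hr, h3, h4⟩ := i.pr _ h1
    have hA1 := (h.lin _ (i.sub _ hr)).1
    obtain rfl := i.dj.eq hA (Or.inl hA1) hA' h3
    refine ⟨β, .t hr ?_, h4⟩
    intro x hx
    obtain ⟨z, hz, hzx⟩ := Im.mem_right h4 hx
    exact i.tT h (i.ker h hr hx) hzx (h2 z hz)
  | @s A' B' u' v' w' h1 hu hv hg ih =>
    intro A hA hA'
    obtain ⟨⟨A1, β⟩, hr, h3, h4⟩ := i.pr _ h1
    have hA1 := (h.lin _ (i.sub _ hr)).1
    obtain rfl := i.dj.eq hA (Or.inl hA1) hA' h3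
    obtain ⟨u, c, h5, h6, h7⟩ := Im.split_left h4
    cases h7 with
    | @cons _ B _ v h8 h9 =>
    simp only at h5
    have hK : ∀ x ∈ β, x ∈ d.N ∨ x ∈ d.T := fun x hx => i.ker h hr hx
    have all : ∀ {a' a : List ℕ}, Im σ a' a → (∀ x ∈ a', T' x) → (∀ x ∈ a, x ∈ d.N ∨ x ∈ d.T) →
        ∀ x ∈ a, x ∈ d.T := by
      intro a' a him
      induction him with
      | nil => intro _ _ x hx; simp at hx
      | cons h5 _ ih =>
        intro ht hk x hx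
        rcases List.mem_cons.1 hx with rfl | hx
        · exact i.tT h (hk _ (by simp)) h5 (ht _ (by simp))
        · exact ih (fun y hy => ht y (by simp [hy])) (fun y hy => hk y (by simp [hy])) x hx
    obtain ⟨w, h10, h11⟩ := ih B (hK B (by rw [h5]; simp)) h8
    refine ⟨u ++ w ++ v, .s (h5 ▸ hr) (all h6 hu fun x hx => hK x (by rw [h5]; simp [hx]))
      (all h9 hv fun x hx => hK x (by rw [h5]; simp [hx])) h10, (h6.append h11).append h9⟩

/-! ### the language of the two grammars -/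

theorem Dat.OK.gn_R (h : d.OK) {B : ℕ} {w : List ℕ} (hg : Gn (prods d.G2) d.TT B w) (hB : B ≠ d.S) :
    Gn d.R d.TT B w := by
  induction hg with
  | @t A β h1 h2 =>
    rcases mem_P2.1 h1 with h1 | ⟨_, -, h3⟩
    · exact .t h1 h2
    · exact absurd (congrArg Prod.fst h3) hB
  | @s A C u v w h1 hu hv hg ih =>
    rcases mem_P2.1 h1 with h1 | ⟨_, -, h3⟩
    · refine .s h1 hu hv (ih ?_)
      obtain ⟨β, hβ⟩ := hg.lhs
      have hC := (h.lin _ hβ).1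
      rcases h.rhs h1 (x := C) (by simp) with h4 | h4
      · exact h4.2
      · exact absurd h4 (h.nt _ hC)
    · exact absurd (congrArg Prod.fst h3) hB

theorem gn_mono {P P' : List (ℕ × List ℕ)} (h : ∀ r ∈ P, r ∈ P') {T : ℕ → Prop} {A : ℕ}
    {w : List ℕ} (hg : Gn P T A w) : Gn P' T A w := by
  induction hg with
  | t h1 h2 => exact .t (h _ h1) h2
  | s h1 hu hv _ ih => exact .s (h _ h1) hu hv ih

theorem Dat.OK.inv1 (h : d.OK) {w : List ℕ} (hg : Gn (prods d.G1) d.TT d.S w) :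
    ∃ B ∈ d.B0, ∃ w0, w = w0 ++ d.T ∧ Gn d.R d.TT B w0 := by
  generalize hA : d.S = A at hg
  cases hg with
  | t h1 h2 =>
    subst hA
    rcases mem_P1.1 h1 with h1 | ⟨B, hB, h3⟩
    · exact absurd rfl (h.r _ h1).2.1
    · have h4 : w = B :: d.T := congrArg Prod.snd h3
      subst h4
      exact absurd (h2 B (by simp)) (h.nt _ (h.b0 B hB).1)
  | @s _ C u v w h1 hu hv hg =>
    subst hA
    rcases mem_P1.1 h1 with h1 | ⟨B, hB, h3⟩
    · exact absurd rfl (h.r _ h1).2.1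
    · have h4 : u ++ C :: v = [] ++ B :: d.T := congrArg Prod.snd h3
      obtain ⟨β, hβ⟩ := hg.lhs
      have hC := (h.lin _ (P1_sub hβ)).1
      obtain ⟨rfl, rfl, rfl⟩ := split_unique (T := d.TT) hu hv (h.nt _ hC) (h.nt _ (h.b0 B hB).1) h4
      exact ⟨C, hB, w, by simp, h.gn_R (gn_mono (fun r => P1_sub) hg) (h.b0 C hB).2⟩

theorem Dat.OK.gn_D (h : d.OK) : ∀ {w : List ℕ}, w ≠ [] → (∀ x ∈ w, x ∈ d.T) →
    Gn d.R d.TT d.D w := by
  intro w
  induction w with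
  | nil => intro h; exact absurd rfl h
  | cons x w ih =>
    intro _ hw
    by_cases he : w = []
    · subst he
      exact .t (h.d1 x (hw x (by simp))).1 (by simpa using hw)
    · have h1 := ih he fun y hy => hw y (by simp [hy])
      have := Gn.s (u := [x]) (v := []) (h.d1 x (hw x (by simp))).2
        (by simpa using hw x (by simp)) (by simp) h1
      simpa using this

theorem interp_refl (G : Gram) : Interp G G := by
  refine ⟨fun x => {x}, ?_, by simp, by simp, by simp, ?_⟩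
  · intro x y _ _ h
    simpa using h
  · intro r hr
    exact ⟨r, hr, by simp, by simp [List.forall₂_same]⟩

/-- family equivalence implies universality -/
theorem Dat.OK.univ_of_fam (h : d.OK) (he : Fam d.G1 = Fam d.G2) {w : List ℕ} (hw : w ≠ [])
    (hwT : ∀ x ∈ w, x ∈ d.T) : ∃ B ∈ d.B0, Gn d.R d.TT B w := by
  have h1 : lang d.G2 ∈ Fam d.G1 := by
    rw [he]
    exact ⟨d.G2, interp_refl _, rfl⟩
  obtain ⟨G', ⟨σ, hd, hN, hT, hS, hP⟩, hl⟩ := h1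
  have i : Itp d σ (prods d.G1) (prods G') (fun x => x ∈ tms G') :=
    ⟨hd, hT, fun r hr => P1_sub hr, hP⟩
  have h2 : w ++ d.T ∈ lang d.G2 := by
    rw [mem_lang_iff (G := d.G2) h.nt h.s h.lin2]
    have h3 : Gn (prods d.G2) d.TT d.D w :=
      gn_mono (fun r hr => mem_P2.2 (Or.inl hr)) (h.gn_D hw hwT)
    have := Gn.s (A := d.S) (u := []) (v := d.T) (P := prods d.G2) (T := d.TT)
      (mem_P2.2 (Or.inr ⟨d.D, Or.inl rfl, rfl⟩)) (by simp) (fun x hx => hx) h3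
    simpa [tms, start, Dat.G2] using this
  rw [← hl] at h2
  have h3 : Gn (prods G') (fun x => x ∈ tms G') (start G') (w ++ d.T) := by
    have hdis : ∀ x ∈ nts G', x ∉ tms G' := by
      intro z hz hz'
      obtain ⟨x, hx, hzx⟩ := (hN z).1 hz
      exact h.nt _ hx (i.tT h (Or.inl hx) hzx hz')
    have hlin : LinP (prods G') (fun x => x ∈ nts G') (fun x => x ∈ tms G') := by
      intro r' hr'
      obtain ⟨r, h4, h5, h6⟩ := hP r' hr'
      have h7 := h.lin r (P1_sub h4)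
      refine ⟨(hN _).2 ⟨r.1, h7.1, h5⟩, ?_⟩
      rcases h7.2 with h8 | ⟨u, B, v, h8, h9, h10, h11⟩
      · refine Or.inl fun z hz => ?_
        obtain ⟨x, hx, hzx⟩ := Im.mem_left h6 hz
        exact (hT z).2 ⟨x, h8 x hx, hzx⟩
      · rw [h8] at h6
        obtain ⟨a, c, h12, h13, h14⟩ := Im.split_right h6
        cases h14 with
        | @cons B' _ v' _ h15 h16 =>
        refine Or.inr ⟨a, B', v', h12, fun z hz => ?_, fun z hz => ?_, (hN _).2 ⟨B, h11, h15⟩⟩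
        · obtain ⟨x, hx, hzx⟩ := Im.mem_left h13 hz
          exact (hT z).2 ⟨x, h9 x hx, hzx⟩
        · obtain ⟨x, hx, hzx⟩ := Im.mem_left h16 hz
          exact (hT z).2 ⟨x, h10 x hx, hzx⟩
    exact (mem_lang_iff hdis ((hN _).2 ⟨d.S, h.s, hS⟩) hlin _).1 h2
  obtain ⟨w1, h4, h5⟩ := i.down h h3 d.S (Or.inl h.s) hS
  obtain ⟨B, hB, w0, rfl, h6⟩ := h.inv1 h4
  refine ⟨B, hB, ?_⟩
  obtain ⟨a, c, h7, h8, h9⟩ := Im.split_right h5
  have hlen : c.length = d.T.length := h9.length_eq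
  obtain ⟨h10, h11⟩ : w = a ∧ d.T = c :=
    ⟨List.append_inj_left' h7 hlen.symm, List.append_inj_right' h7 hlen.symm⟩
  subst h10
  rw [← h11] at h9
  have h12 : ∀ x ∈ d.T, x ∈ σ x := by simpa [List.forall₂_same] using h9
  have h13 : w = w0 := by
    have hw0 := h6.all
    clear h2 h3 h4 h5 h6 h7 h9 hw
    induction h8 with
    | nil => rfl
    | @cons x y l l' h14 _ ih =>
      have hx := hwT x (by simp)
      have hy := hw0 y (by simp)
      rw [i.dj.eq (Or.inr hx) (Or.inr hy) (h12 x hx) h14,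
        ih (fun z hz => hwT z (by simp [hz])) (fun z hz => hw0 z (by simp [hz]))]
  rw [h13]
  exact h6

end Pool.Agent.X247.Gf
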