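import Pool.Agent.X247.Gf.Fam

set_option autoImplicit false

/-!
# Linear grammars for the non-solutions of a system of pairs of words
-/

namespace Pool.Agent.X247.Gf

section

variable {X A : Type} (tx : X → ℕ) (ta : A → ℕ) (k : A → List X) (c : List X → ℕ) (D : ℕ)
  (T : ℕ → Prop)

/-- the code words -/
def Sol (v : List X) (w : List ℕ) : Prop :=
  ∃ is : List A, w = (v ++ is.flatMap k).map tx ++ is.reverse.map ta

/-- the right-hand sides for the remaining word `v` -/
def Rl : List X → List ℕ → Prop
  | [], β => (∃ i : A, β = [c (k i), ta i] ∨ β = [ta i]) ∨ ∃ x : X, β = [D, tx x] ∨ β = [tx x]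
  | x :: v, β => β = [tx x, c v] ∨ (v ≠ [] ∧ β = [tx x]) ∨
      ∃ y, T y ∧ y ≠ tx x ∧ (β = [y, D] ∨ β = [y])

variable {tx ta k c D T}

theorem sol_nil_iff (v : List X) : Sol tx ta k v [] ↔ v = [] := by
  constructor
  · rintro ⟨is, h⟩
    have := congrArg List.length h
    simp at this
    exact List.length_eq_zero_iff.1 (by omega)
  · rintro rfl
    exact ⟨[], by simp⟩

theorem sol_cons_iff (x : X) (v : List X) (y : ℕ) (w : List ℕ) :
    Sol tx ta k (x :: v) (y :: w) ↔ y = tx x ∧ Sol tx ta k v w := by
  constructor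
  · rintro ⟨is, h⟩
    simp only [List.cons_append, List.map_cons, List.cons.injEq] at h
    exact ⟨h.1, is, h.2⟩
  · rintro ⟨rfl, is, h⟩
    exact ⟨is, by simp [h]⟩

theorem sol_snoc_iff (y : ℕ) (w : List ℕ) :
    Sol tx ta k [] (w ++ [y]) ↔ ∃ i, y = ta i ∧ Sol tx ta k (k i) w := by
  constructor
  · rintro ⟨is, h⟩
    cases is with
    | nil => simp at h
    | cons i is =>
      refine ⟨i, ?_⟩
      have h1 : w ++ [y] = ((k i ++ is.flatMap k).map tx ++ is.reverse.map ta) ++ [ta i] := by
        rw [h]
        simp
      have h2 := List.append_inj' h1 rfl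
      refine ⟨by simpa using h2.2, is, h2.1⟩
  · rintro ⟨i, rfl, is, h⟩
    exact ⟨i :: is, by simp [h]⟩

theorem gn_ne {R : List (ℕ × List ℕ)} (hne : ∀ r ∈ R, r.2 ≠ []) (hR : ∀ r ∈ R, ¬ T r.1)
    {B : ℕ} {w : List ℕ} (h : Gn R T B w) : w ≠ [] := by
  induction h with
  | t h _ => exact hne _ h
  | s _ _ _ _ ih =>
    intro h
    simp at h
    exact ih h.2.1

/-- the words generated by `c v` are the nonempty words that are not code words -/
theorem gn_iff {R : List (ℕ × List ℕ)} {V : List X → Prop}
    (hTx : ∀ x, T (tx x)) (hTa : ∀ i, T (ta i)) (hT : ∀ y, T y → (∃ x, y = tx x) ∨ ∃ i, y = ta i)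
    (hta : Function.Injective ta) (hxa : ∀ x i, tx x ≠ ta i)
    (hc : ∀ v, ¬ T (c v)) (hD : ¬ T D) (hk : ∀ i, k i ≠ [])
    (hV0 : V []) (hVk : ∀ i, V (k i)) (hV : ∀ x v, V (x :: v) → V v)
    (hne : ∀ r ∈ R, r.2 ≠ []) (hR : ∀ r ∈ R, ¬ T r.1)
    (hgD : ∀ w : List ℕ, w ≠ [] → (∀ x ∈ w, T x) → Gn R T D w)
    (hRl : ∀ v, V v → ∀ β, (c v, β) ∈ R ↔ Rl tx ta k c D T v β) :
    ∀ (n : ℕ) (w : List ℕ) (v : List X), w.length = n → w ≠ [] → (∀ x ∈ w, T x) → V v →
      (Gn R T (c v) w ↔ ¬ Sol tx ta k v w) := by
  intro n
  induction n using Nat.strong_induction_on with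
  | _ n ih =>
  intro w v hn hw hwT hv
  have gnT : ∀ {B : ℕ} {w : List ℕ}, Gn R T B w → ¬ T B := by
    intro B w h
    obtain ⟨β, hβ⟩ := h.lhs
    exact hR _ hβ
  cases v with
  | cons x v =>
    obtain ⟨y, w, rfl⟩ := List.exists_cons_of_ne_nil hw
    rw [sol_cons_iff]
    have hwT' : ∀ x ∈ w, T x := fun z hz => hwT z (by simp [hz])
    have hyT : T y := hwT y (by simp)
    simp only [List.length_cons] at hn
    constructor
    · rintro h ⟨rfl, hs⟩
      generalize hW : tx x :: w = W at h
      cases h with
      | t h1 h2 =>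
        subst hW
        rcases (hRl _ hv _).1 h1 with h3 | ⟨h3, h4⟩ | ⟨y, h3, h4, h5 | h5⟩
        · rw [h3] at h2
          exact hc v (h2 _ (by simp))
        · have : w = [] := by simpa using h4
          rw [this, sol_nil_iff] at hs
          exact h3 hs
        · rw [h5] at h2
          exact hD (h2 _ (by simp))
        · simp only [List.cons.injEq] at h5
          exact h4 h5.1.symm
      | @s _ C u v' w1 h1 hu hv' hg =>
        have hC := gnT hg
        rcases (hRl _ hv _).1 h1 with h3 | ⟨h3, h4⟩ | ⟨y, h3, h4, h5 | h5⟩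
        · obtain ⟨rfl, rfl, rfl⟩ := split_unique (x := [tx x]) (B := c v) (y := []) hu hv' hC
            (hc v) h3
          simp only [List.singleton_append, List.append_nil, List.cons.injEq, true_and] at hW
          subst hW
          exact (ih w.length (by omega) w v rfl (gn_ne hne hR hg) hwT' (hV _ _ hv)).1 hg hs
        · have : C ∈ [tx x] := by rw [← h4]; simp
          simp only [List.mem_singleton] at this
          exact hC (this ▸ hTx x)
        · obtain ⟨rfl, rfl, rfl⟩ := split_unique (x := [y]) (B := D) (y := []) hu hv' hC hD h5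
          simp only [List.singleton_append, List.append_nil, List.cons.injEq] at hW
          exact h4 hW.1.symm
        · have : C ∈ [y] := by rw [← h5]; simp
          simp only [List.mem_singleton] at this
          exact hC (this ▸ h3)
    · intro h
      by_cases hy : y = tx x
      · subst hy
        have h1 : ¬ Sol tx ta k v w := fun h2 => h ⟨rfl, h2⟩
        by_cases h0 : w = []
        · subst h0
          rw [sol_nil_iff] at h1
          exact .t ((hRl _ hv _).2 (Or.inr (Or.inl ⟨h1, rfl⟩))) (by simpa using hTx x)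
        · have h2 := (ih w.length (by omega) w v rfl h0 hwT' (hV _ _ hv)).2 h1
          have := Gn.s (A := c (x :: v)) (u := [tx x]) (v := []) ((hRl _ hv _).2 (Or.inl rfl))
            (by simpa using hTx x) (by simp) h2
          simpa using this
      · by_cases h0 : w = []
        · subst h0
          exact .t ((hRl _ hv _).2 (Or.inr (Or.inr ⟨y, hyT, hy, Or.inr rfl⟩))) (by simpa using hyT)
        · have := Gn.s (A := c (x :: v)) (u := [y]) (v := [])
            ((hRl _ hv _).2 (Or.inr (Or.inr ⟨y, hyT, hy, Or.inl rfl⟩)))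
            (by simpa using hyT) (by simp) (hgD w h0 hwT')
          simpa using this
  | nil =>
    obtain ⟨w, y, rfl⟩ : ∃ w0 y, w = w0 ++ [y] :=
      ⟨w.dropLast, w.getLast hw, (List.dropLast_append_getLast hw).symm⟩
    rw [sol_snoc_iff]
    have hwT' : ∀ x ∈ w, T x := fun z hz => hwT z (by simp [hz])
    have hyT : T y := hwT y (by simp)
    simp only [List.length_append, List.length_cons, List.length_nil] at hn
    constructor
    · rintro h ⟨i, rfl, hs⟩
      generalize hW : w ++ [ta i] = W at h
      cases h with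
      | t h1 h2 =>
        subst hW
        rcases (hRl _ hv _).1 h1 with ⟨j, h3 | h3⟩ | ⟨x, h3 | h3⟩
        · rw [h3] at h2
          exact hc (k j) (h2 _ (by simp))
        · have h4 : w ++ [ta i] = [] ++ [ta j] := h3
          have h5 := (List.append_inj' h4 rfl).1
          rw [h5, sol_nil_iff] at hs
          exact hk i hs
        · rw [h3] at h2
          exact hD (h2 _ (by simp))
        · have h4 : w ++ [ta i] = [] ++ [tx x] := h3
          have h5 := (List.append_inj' h4 rfl).2
          simp only [List.cons.injEq, and_true] at h5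
          exact hxa x i h5.symm
      | @s _ C u v' w1 h1 hu hv' hg =>
        have hC := gnT hg
        rcases (hRl _ hv _).1 h1 with ⟨j, h3 | h3⟩ | ⟨x, h3 | h3⟩
        · obtain ⟨rfl, rfl, rfl⟩ := split_unique (x := []) (B := c (k j)) (y := [ta j]) hu hv' hC
            (hc _) h3
          have h5 := List.append_inj' hW rfl
          simp only [List.cons.injEq, and_true, List.nil_append] at h5
          obtain ⟨h5, h6⟩ := h5
          obtain rfl := hta h6
          subst h5
          exact (ih w.length (by omega) w (k i) rfl (gn_ne hne hR hg) hwT' (hVk i)).1 hg hs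
        · have : C ∈ [ta j] := by rw [← h3]; simp
          simp only [List.mem_singleton] at this
          exact hC (this ▸ hTa j)
        · obtain ⟨rfl, rfl, rfl⟩ := split_unique (x := []) (B := D) (y := [tx x]) hu hv' hC hD h3
          have h5 := (List.append_inj' hW rfl).2
          simp only [List.cons.injEq, and_true] at h5
          exact hxa x i h5.symm
        · have : C ∈ [tx x] := by rw [← h3]; simp
          simp only [List.mem_singleton] at this
          exact hC (this ▸ hTx x)
    · intro h
      rcases hT y hyT with ⟨x, rfl⟩ | ⟨i, rfl⟩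
      · by_cases h0 : w = []
        · subst h0
          exact .t ((hRl _ hv _).2 (Or.inr ⟨x, Or.inr rfl⟩)) (by simpa using hTx x)
        · have := Gn.s (A := c []) (u := []) (v := [tx x]) ((hRl _ hv _).2 (Or.inr ⟨x, Or.inl rfl⟩))
            (by simp) (by simpa using hTx x) (hgD w h0 hwT')
          simpa using this
      · have h1 : ¬ Sol tx ta k (k i) w := fun h2 => h ⟨i, rfl, h2⟩
        by_cases h0 : w = []
        · subst h0
          exact .t ((hRl _ hv _).2 (Or.inl ⟨i, Or.inr rfl⟩)) (by simpa using hTa i)
        · have h2 := (ih w.length (by omega) w (k i) rfl h0 hwT' (hVk i)).2 h1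
          have := Gn.s (A := c []) (u := []) (v := [ta i]) ((hRl _ hv _).2 (Or.inl ⟨i, Or.inl rfl⟩))
            (by simp) (by simpa using hTa i) h2
          simpa using this

end

end Pool.Agent.X247.Gf
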